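import Pool.Agent.H32.LD.Avg

/-!
# Orders without sparse labellings, with a larger threshold
-/

open Finset

set_option autoImplicit false

namespace Pool.Agent.H32.LD

/-- The averaging argument with `D` orders and threshold `m + 1`. -/
theorem exists_orders_gen (N D m : ℕ) {t : ℝ} (ht0 : 0 < t) (ht1 : t ≤ 1)
    (h : (27 : ℝ) ^ N * (1 + t) ^ (2 * N * D) < (t ^ 2) ^ m * (N.centralBinom : ℝ) ^ D) :
    ∃ π : Fin D → Equiv.Perm (Fin (3 * N)),
      ∀ g : Fin (3 * N) → Fin 3, cnt 1 g = N → cnt 2 g = N →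
        m + 1 ≤ ∑ p, dsc (3 * N) (g ∘ π p) := by
  classical
  by_contra hcon
  push Not at hcon
  set q := 3 * N with hq
  set C : ℝ := (N.centralBinom : ℝ) with hC
  have hCpos : 0 < C := by
    rw [hC]
    exact_mod_cast N.centralBinom_pos
  have hfac : (0 : ℝ) < (q.factorial : ℝ) := by exact_mod_cast q.factorial_pos
  -- lower bound
  have hlow : ((q.factorial : ℝ)) ^ D * (t ^ 2) ^ m ≤
      ∑ π : Fin D → Equiv.Perm (Fin q), ∑ g : Fin q → Fin 3,
        if cnt 1 g = N ∧ cnt 2 g = N then ∏ p, (t ^ 2) ^ dsc q (g ∘ π p) else 0 := by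
    have h1 : ((q.factorial : ℝ)) ^ D * (t ^ 2) ^ m =
        ∑ _π : Fin D → Equiv.Perm (Fin q), (t ^ 2) ^ m := by
      rw [sum_const, card_univ, Fintype.card_fun, Fintype.card_perm, Fintype.card_fin,
        Fintype.card_fin, nsmul_eq_mul]
      push_cast
      ring
    rw [h1]
    apply sum_le_sum
    intro π _
    obtain ⟨g, hg1, hg2, hg3⟩ := hcon π
    refine le_trans ?_ (single_le_sum (f := fun g : Fin q → Fin 3 =>
      if cnt 1 g = N ∧ cnt 2 g = N then ∏ p, (t ^ 2) ^ dsc q (g ∘ π p) else 0)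
      (fun g _ => by split_ifs <;> positivity) (mem_univ g))
    simp only [hg1, hg2, and_self, if_true]
    rw [prod_pow_eq_pow_sum]
    exact pow_le_pow_of_le_one (by positivity) (pow_le_one₀ ht0.le ht1) (by omega)
  -- upper bound
  have hup : (∑ π : Fin D → Equiv.Perm (Fin q), ∑ g : Fin q → Fin 3,
        if cnt 1 g = N ∧ cnt 2 g = N then ∏ p, (t ^ 2) ^ dsc q (g ∘ π p) else 0) * C ^ D ≤
      27 ^ N * ((q.factorial : ℝ) * (1 + t) ^ (2 * N)) ^ D := by
    rw [sum_comm, sum_mul]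
    have h2 : ∀ g : Fin q → Fin 3, (∑ π : Fin D → Equiv.Perm (Fin q),
        if cnt 1 g = N ∧ cnt 2 g = N then ∏ p, (t ^ 2) ^ dsc q (g ∘ π p) else 0) * C ^ D ≤
        ((q.factorial : ℝ) * (1 + t) ^ (2 * N)) ^ D := by
      intro g
      by_cases hg : cnt 1 g = N ∧ cnt 2 g = N
      · simp only [hg, and_self, if_true]
        rw [← Fintype.sum_pow (fun π : Equiv.Perm (Fin q) => (t ^ 2) ^ dsc q (g ∘ π)) D,
          ← mul_pow]
        have h3 := avg (t := t) ht0.le g hg.1 hg.2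
        rw [← Nat.centralBinom_eq_two_mul_choose] at h3
        exact pow_le_pow_left₀ (by positivity) h3 D
      · simp only [hg, if_false, sum_const_zero, zero_mul]
        positivity
    refine (sum_le_sum (fun g _ => h2 g)).trans (le_of_eq ?_)
    rw [sum_const, card_univ, Fintype.card_fun, Fintype.card_fin, Fintype.card_fin, nsmul_eq_mul,
      hq, pow_mul]
    push_cast
    norm_num
  have h4 := (mul_le_mul_of_nonneg_right hlow (by positivity : 0 ≤ C ^ D)).trans hup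
  have h6 : (q.factorial : ℝ) ^ D * ((t ^ 2) ^ m * C ^ D) ≤
      (q.factorial : ℝ) ^ D * (27 ^ N * (1 + t) ^ (2 * N * D)) := by
    calc (q.factorial : ℝ) ^ D * ((t ^ 2) ^ m * C ^ D) =
        (q.factorial : ℝ) ^ D * (t ^ 2) ^ m * C ^ D := by ring
      _ ≤ _ := h4
      _ = _ := by
        rw [mul_pow, ← pow_mul]
        ring
  have h5 : (t ^ 2) ^ m * C ^ D ≤ 27 ^ N * (1 + t) ^ (2 * N * D) :=
    le_of_mul_le_mul_left h6 (by positivity)
  exact absurd h (not_lt.mpr h5)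

private lemma cb_step {N : ℕ} {c : ℝ} (h : c * ((N : ℝ) + 1) ≤ 2 * (2 * N + 1)) :
    c * (N.centralBinom : ℝ) ≤ ((N + 1).centralBinom : ℝ) := by
  have h1 : ((N : ℝ) + 1) * ((N + 1).centralBinom : ℝ) =
      2 * (2 * N + 1) * (N.centralBinom : ℝ) := by
    exact_mod_cast Nat.succ_mul_centralBinom_succ N
  have hN1 : (0 : ℝ) < (N : ℝ) + 1 := by positivity
  have hcb : (0 : ℝ) < (N.centralBinom : ℝ) := by exact_mod_cast N.centralBinom_pos
  have h4 : ((N : ℝ) + 1) * (c * (N.centralBinom : ℝ)) ≤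
      ((N : ℝ) + 1) * ((N + 1).centralBinom : ℝ) := by
    rw [h1]
    calc ((N : ℝ) + 1) * (c * (N.centralBinom : ℝ)) =
        c * ((N : ℝ) + 1) * (N.centralBinom : ℝ) := by ring
      _ ≤ _ := mul_le_mul_of_nonneg_right h hcb.le
  exact le_of_mul_le_mul_left h4 hN1

private lemma num_aux1 : ∀ N : ℕ, 2 ≤ N →
    (27 : ℝ) ^ N * (7 / 6) ^ (14 * N) * 36 ^ (N - 2) < (N.centralBinom : ℝ) ^ 7 := by
  intro N hN
  induction N, hN using Nat.le_induction with
  | base =>
    have : Nat.centralBinom 2 = 6 := by decide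
    rw [this]
    norm_num
  | succ N hN ih =>
    rcases Nat.lt_or_ge N 5 with h5 | h5
    · interval_cases N
      · have : Nat.centralBinom 3 = 20 := by decide
        rw [this]
        norm_num
      · have : Nat.centralBinom 4 = 70 := by decide
        rw [this]
        norm_num
      · have : Nat.centralBinom 5 = 252 := by decide
        rw [this]
        norm_num
    · have hcb : (0 : ℝ) < (N.centralBinom : ℝ) := by exact_mod_cast N.centralBinom_pos
      have h2 : (11 / 3 : ℝ) * (N.centralBinom : ℝ) ≤ ((N + 1).centralBinom : ℝ) := by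
        have h5' : (5 : ℝ) ≤ N := by exact_mod_cast h5
        exact cb_step (by linarith)
      have h6 : (27 : ℝ) ^ (N + 1) * (7 / 6) ^ (14 * (N + 1)) * 36 ^ (N + 1 - 2) =
          (27 * (7 / 6) ^ 14 * 36) *
            ((27 : ℝ) ^ N * (7 / 6) ^ (14 * N) * 36 ^ (N - 2)) := by
        have e1 : 14 * (N + 1) = 14 * N + 14 := by ring
        have e2 : N + 1 - 2 = (N - 2) + 1 := by omega
        rw [e1, e2, pow_succ, pow_add, pow_succ (36 : ℝ)]
        ring
      rw [h6]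
      calc (27 * (7 / 6) ^ 14 * 36) *
            ((27 : ℝ) ^ N * (7 / 6) ^ (14 * N) * 36 ^ (N - 2))
          < (27 * (7 / 6) ^ 14 * 36) * (N.centralBinom : ℝ) ^ 7 :=
            mul_lt_mul_of_pos_left ih (by norm_num)
        _ ≤ (11 / 3) ^ 7 * (N.centralBinom : ℝ) ^ 7 :=
            mul_le_mul_of_nonneg_right (by norm_num) (by positivity)
        _ = ((11 / 3 : ℝ) * (N.centralBinom : ℝ)) ^ 7 := by rw [mul_pow]
        _ ≤ ((N + 1).centralBinom : ℝ) ^ 7 := pow_le_pow_left₀ (by positivity) h2 7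

private lemma num_aux2 : ∀ N : ℕ, 2 ≤ N →
    (36 * (7 / 6 : ℝ) ^ 14) ^ N ≤ (N.centralBinom : ℝ) ^ 7 := by
  intro N hN
  induction N, hN using Nat.le_induction with
  | base =>
    have : Nat.centralBinom 2 = 6 := by decide
    rw [this]
    norm_num
  | succ N hN ih =>
    have hcb : (0 : ℝ) < (N.centralBinom : ℝ) := by exact_mod_cast N.centralBinom_pos
    have h2 : (3 : ℝ) * (N.centralBinom : ℝ) ≤ ((N + 1).centralBinom : ℝ) := by
      have h5' : (2 : ℝ) ≤ N := by exact_mod_cast hN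
      exact cb_step (by linarith)
    calc (36 * (7 / 6 : ℝ) ^ 14) ^ (N + 1) = (36 * (7 / 6 : ℝ) ^ 14) ^ N *
          (36 * (7 / 6 : ℝ) ^ 14) := pow_succ _ _
      _ ≤ (N.centralBinom : ℝ) ^ 7 * 3 ^ 7 :=
          mul_le_mul ih (by norm_num) (by positivity) (by positivity)
      _ = (3 * (N.centralBinom : ℝ)) ^ 7 := by rw [mul_pow]; ring
      _ ≤ ((N + 1).centralBinom : ℝ) ^ 7 := pow_le_pow_left₀ (by positivity) h2 7

/-- There are `7 + k` linear orders of `3N` vertices such that every pair of disjoint `N`-sets has at least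
`N - 1 + (R - 1)` descents, as soon as `7 (R - 1) ≤ N k`. -/
theorem exists_orders2 (N R k : ℕ) (hN : 2 ≤ N) (h : 7 * (R - 1) ≤ N * k) (_hR : 1 ≤ R) :
    ∃ π : Fin (7 + k) → Equiv.Perm (Fin (3 * N)),
      ∀ g : Fin (3 * N) → Fin 3, cnt 1 g = N → cnt 2 g = N →
        N - 1 + (R - 1) ≤ ∑ p, dsc (3 * N) (g ∘ π p) := by
  set C : ℝ := (N.centralBinom : ℝ) with hC
  have hCpos : 0 < C := by
    rw [hC]
    exact_mod_cast N.centralBinom_pos
  have h1 := num_aux1 N hN
  have h2 := num_aux2 N hN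
  rw [← hC] at h1 h2
  have h3 : (36 : ℝ) ^ (R - 1) * (7 / 6) ^ (2 * N * k) ≤ C ^ k := by
    refine le_of_pow_le_pow_left₀ (n := 7) (by norm_num) (by positivity) ?_
    calc ((36 : ℝ) ^ (R - 1) * (7 / 6) ^ (2 * N * k)) ^ 7 =
        36 ^ (7 * (R - 1)) * (7 / 6) ^ (14 * N * k) := by
          rw [mul_pow, ← pow_mul, ← pow_mul]
          congr 2 <;> ring
      _ ≤ 36 ^ (N * k) * (7 / 6) ^ (14 * N * k) :=
          mul_le_mul_of_nonneg_right (pow_le_pow_right₀ (by norm_num) h) (by positivity)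
      _ = ((36 * (7 / 6 : ℝ) ^ 14) ^ N) ^ k := by
          rw [← pow_mul, mul_pow, ← pow_mul]
          congr 2
          ring
      _ ≤ (C ^ 7) ^ k := pow_le_pow_left₀ (by positivity) h2 k
      _ = (C ^ k) ^ 7 := by rw [← pow_mul, ← pow_mul, mul_comm]
  have h4 : (27 : ℝ) ^ N * (7 / 6) ^ (2 * N * (7 + k)) * 36 ^ (N - 2 + (R - 1)) <
      C ^ (7 + k) := by
    calc (27 : ℝ) ^ N * (7 / 6) ^ (2 * N * (7 + k)) * 36 ^ (N - 2 + (R - 1)) =
        (27 ^ N * (7 / 6) ^ (14 * N) * 36 ^ (N - 2)) *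
          (36 ^ (R - 1) * (7 / 6) ^ (2 * N * k)) := by
          rw [show 2 * N * (7 + k) = 14 * N + 2 * N * k by ring, pow_add, pow_add]
          ring
      _ < C ^ 7 * (36 ^ (R - 1) * (7 / 6) ^ (2 * N * k)) :=
          mul_lt_mul_of_pos_right h1 (by positivity)
      _ ≤ C ^ 7 * C ^ k := mul_le_mul_of_nonneg_left h3 (by positivity)
      _ = C ^ (7 + k) := (pow_add _ _ _).symm
  have h5 : (27 : ℝ) ^ N * (1 + 1 / 6) ^ (2 * N * (7 + k)) <
      ((1 / 6 : ℝ) ^ 2) ^ (N - 2 + (R - 1)) * C ^ (7 + k) := by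
    have e : ((1 / 6 : ℝ) ^ 2) ^ (N - 2 + (R - 1)) * 36 ^ (N - 2 + (R - 1)) = 1 := by
      rw [← mul_pow]
      norm_num
    have e2 : (1 + 1 / 6 : ℝ) = 7 / 6 := by norm_num
    rw [e2]
    calc (27 : ℝ) ^ N * (7 / 6) ^ (2 * N * (7 + k)) =
        ((1 / 6 : ℝ) ^ 2) ^ (N - 2 + (R - 1)) *
          (27 ^ N * (7 / 6) ^ (2 * N * (7 + k)) * 36 ^ (N - 2 + (R - 1))) := by
          linear_combination -((27 : ℝ) ^ N * (7 / 6) ^ (2 * N * (7 + k))) * e
      _ < _ := mul_lt_mul_of_pos_left h4 (by positivity)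
  obtain ⟨π, hπ⟩ := exists_orders_gen N (7 + k) (N - 2 + (R - 1)) (t := 1 / 6) (by norm_num)
    (by norm_num) h5
  refine ⟨π, fun g hg1 hg2 => ?_⟩
  have := hπ g hg1 hg2
  omega

end Pool.Agent.H32.LD
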