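import Pool.Agent.H32.LD.Rec

/-!
# Averaging over permutations
-/

open Finset

set_option autoImplicit false

namespace Pool.Agent.H32.LD

lemma cnt_comp {q : ℕ} (k : Fin 3) (f : Fin q → Fin 3) (π : Equiv.Perm (Fin q)) :
    cnt k (f ∘ π) = cnt k f := by
  unfold cnt
  refine card_bij (fun i _ => π i) ?_ ?_ ?_
  · intro i hi
    simpa using hi
  · intro i _ j _ h
    exact π.injective h
  · intro j hj
    refine ⟨π.symm j, ?_, by simp⟩
    simpa using hj

lemma cnt_sum {q : ℕ} (f : Fin q → Fin 3) : cnt 0 f + cnt 1 f + cnt 2 f = q := by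
  unfold cnt
  have h := card_eq_sum_card_fiberwise (f := f) (s := (univ : Finset (Fin q))) (t := univ)
    (fun x _ => mem_univ _)
  rw [card_univ, Fintype.card_fin, Fin.sum_univ_three] at h
  exact h.symm

/-- two labellings with the same counts differ by a permutation -/
lemma exists_perm {q : ℕ} (f g : Fin q → Fin 3) (h : ∀ k, cnt k f = cnt k g) :
    ∃ σ : Equiv.Perm (Fin q), f = g ∘ σ := by
  classical
  have e : ∀ k : Fin 3, Nonempty ({a // f a = k} ≃ {b // g b = k}) := by
    intro k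
    rw [← Fintype.card_eq]
    rw [Fintype.card_subtype, Fintype.card_subtype]
    exact h k
  refine ⟨Equiv.ofFiberEquiv (fun k => (e k).some), ?_⟩
  funext i
  simp only [Function.comp_apply]
  exact (Equiv.ofFiberEquiv_map (fun k => (e k).some) i).symm

theorem avg {q u : ℕ} {t : ℝ} (ht : 0 ≤ t) (g : Fin q → Fin 3) (h1 : cnt 1 g = u)
    (h2 : cnt 2 g = u) :
    (∑ π : Equiv.Perm (Fin q), (t ^ 2) ^ dsc q (g ∘ π)) * ((2 * u).choose u : ℝ) ≤
      (q.factorial : ℝ) * (1 + t) ^ (2 * u) := by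
  classical
  set V := ∑ π : Equiv.Perm (Fin q), (t ^ 2) ^ dsc q (g ∘ π) with hV
  have hconst : ∀ f : Fin q → Fin 3, cnt 1 f = u → cnt 2 f = u →
      ∑ π : Equiv.Perm (Fin q), (t ^ 2) ^ dsc q (f ∘ π) = V := by
    intro f hf1 hf2
    obtain ⟨σ, hσ⟩ := exists_perm f g (by
      intro k
      have hf := cnt_sum f
      have hg := cnt_sum g
      fin_cases k
      · show cnt 0 f = cnt 0 g
        omega
      · show cnt 1 f = cnt 1 g
        omega
      · show cnt 2 f = cnt 2 g
        omega)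
    rw [hV, hσ]
    refine Fintype.sum_equiv (Equiv.mulLeft σ) _ _ (fun π => ?_)
    rfl
  have hcard : SS 1 q u u = (q.choose (2 * u) : ℝ) * ((2 * u).choose u : ℝ) := by
    rw [(closed_form 1 q).1, G_one, two_mul]
  have hval : SS (t ^ 2) q u u = (q.choose (2 * u) : ℝ) * G (t ^ 2) u u := by
    rw [(closed_form (t ^ 2) q).1, two_mul]
  have hdouble : SS 1 q u u * V = (q.factorial : ℝ) * SS (t ^ 2) q u u := by
    have h3 : SS 1 q u u * V = ∑ f : Fin q → Fin 3, if cnt 1 f = u ∧ cnt 2 f = u then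
        ∑ π : Equiv.Perm (Fin q), (t ^ 2) ^ dsc q (f ∘ π) else 0 := by
      unfold SS
      rw [sum_mul]
      apply sum_congr rfl
      intro f _
      by_cases hf : cnt 1 f = u ∧ cnt 2 f = u
      · rw [if_pos hf, if_pos hf, one_pow, one_mul, hconst f hf.1 hf.2]
      · rw [if_neg hf, if_neg hf, zero_mul]
    have h4 : (∑ f : Fin q → Fin 3, if cnt 1 f = u ∧ cnt 2 f = u then
        ∑ π : Equiv.Perm (Fin q), (t ^ 2) ^ dsc q (f ∘ π) else 0) =
        ∑ π : Equiv.Perm (Fin q), ∑ f : Fin q → Fin 3,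
          if cnt 1 f = u ∧ cnt 2 f = u then (t ^ 2) ^ dsc q (f ∘ π) else 0 := by
      rw [sum_comm]
      apply sum_congr rfl
      intro f _
      by_cases hf : cnt 1 f = u ∧ cnt 2 f = u
      · simp [hf]
      · simp [hf]
    have h5 : ∀ π : Equiv.Perm (Fin q), (∑ f : Fin q → Fin 3,
        if cnt 1 f = u ∧ cnt 2 f = u then (t ^ 2) ^ dsc q (f ∘ π) else 0) =
        SS (t ^ 2) q u u := by
      intro π
      unfold SS
      refine Fintype.sum_equiv (π.symm.arrowCongr (Equiv.refl (Fin 3))) _ _ (fun f => ?_)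
      have h6 : (π.symm.arrowCongr (Equiv.refl (Fin 3))) f = f ∘ π := by
        funext i
        simp [Equiv.arrowCongr]
      rw [h6, cnt_comp, cnt_comp]
    rw [h3, h4, sum_congr rfl (fun π _ => h5 π), sum_const, card_univ, Fintype.card_perm,
      Fintype.card_fin, nsmul_eq_mul]
  have hpos : (0 : ℝ) < (q.choose (2 * u) : ℝ) := by
    have : 2 * u ≤ q := by
      have := cnt_sum g
      omega
    exact_mod_cast Nat.choose_pos this
  rw [hcard, hval] at hdouble
  have h7 : (q.choose (2 * u) : ℝ) * (((2 * u).choose u : ℝ) * V) =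
      (q.choose (2 * u) : ℝ) * ((q.factorial : ℝ) * G (t ^ 2) u u) := by
    linarith [hdouble]
  have h8 := mul_left_cancel₀ hpos.ne' h7
  rw [mul_comm, h8]
  exact mul_le_mul_of_nonneg_left (G_le ht u) (by positivity)

end Pool.Agent.H32.LD
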