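import Mathlib

/-!
# Descents of labelled words (LinearDegree V2)

A labelling of `Fin q` has values in `Fin 3`: `0` = unlabelled, `1` = the lower set `A` (closed), `2` = the upper
set `B`.  `dsc f` is the number of positions `j` with label `1` such that the last labelled position before `j`
has label `2`.
-/

open Finset

set_option autoImplicit false

namespace Pool.Agent.H32.LD

/-- label of the last labelled position (`0` if there is none) -/
def lst : (q : ℕ) → (Fin q → Fin 3) → Fin 3
  | 0, _ => 0
  | q + 1, f => if f (Fin.last q) = 0 then lst q (fun i => f i.castSucc) else f (Fin.last q)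

/-- number of descents -/
def dsc : (q : ℕ) → (Fin q → Fin 3) → ℕ
  | 0, _ => 0
  | q + 1, f => dsc q (fun i => f i.castSucc) +
      if f (Fin.last q) = 1 ∧ lst q (fun i => f i.castSucc) = 2 then 1 else 0

/-- number of positions with label `k` -/
def cnt {q : ℕ} (k : Fin 3) (f : Fin q → Fin 3) : ℕ := (univ.filter (fun i => f i = k)).card

/-- the polynomial `∑_r C(a,r) C(b,r) y^r` -/
noncomputable def G (y : ℝ) (a b : ℕ) : ℝ :=
  ∑ r ∈ range (a + 1), (a.choose r : ℝ) * (b.choose r : ℝ) * y ^ r

end Pool.Agent.H32.LD
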