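import Pool.Agent.H32.LD.Avg

/-!
# Seven orders without sparse labellings
-/

open Finset

set_option autoImplicit false

namespace Pool.Agent.H32.LD

private lemma num_aux : ∀ N : ℕ, 2 ≤ N →
    (27 : ℝ) ^ N * (7 / 6) ^ (14 * N) * 6 ^ (2 * (N - 2)) < (N.centralBinom : ℝ) ^ 7 := by
  intro N hN
  induction N, hN using Nat.le_induction with
  | base =>
    have : Nat.centralBinom 2 = 6 := by decide
    rw [this]
    norm_num
  | succ N hN ih =>
    rcases Nat.lt_or_ge N 5 with h5 | h5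
    · interval_cases N
      · have : Nat.centralBinom 3 = 20 := by decide
        rw [this]
        norm_num
      · have : Nat.centralBinom 4 = 70 := by decide
        rw [this]
        norm_num
      · have : Nat.centralBinom 5 = 252 := by decide
        rw [this]
        norm_num
    · have h1 : ((N : ℝ) + 1) * ((N + 1).centralBinom : ℝ) =
          2 * (2 * N + 1) * (N.centralBinom : ℝ) := by
        exact_mod_cast Nat.succ_mul_centralBinom_succ N
      have hN1 : (0 : ℝ) < (N : ℝ) + 1 := by positivity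
      have hcb : (0 : ℝ) < (N.centralBinom : ℝ) := by exact_mod_cast N.centralBinom_pos
      have h2 : (11 / 3 : ℝ) * (N.centralBinom : ℝ) ≤ ((N + 1).centralBinom : ℝ) := by
        have h5' : (5 : ℝ) ≤ N := by exact_mod_cast h5
        have h3 : (11 / 3 : ℝ) * ((N : ℝ) + 1) ≤ 2 * (2 * N + 1) := by linarith
        have h4 : ((N : ℝ) + 1) * ((11 / 3 : ℝ) * (N.centralBinom : ℝ)) ≤
            ((N : ℝ) + 1) * ((N + 1).centralBinom : ℝ) := by
          rw [h1]
          calc ((N : ℝ) + 1) * ((11 / 3 : ℝ) * (N.centralBinom : ℝ)) =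
              (11 / 3 : ℝ) * ((N : ℝ) + 1) * (N.centralBinom : ℝ) := by ring
            _ ≤ _ := mul_le_mul_of_nonneg_right h3 hcb.le
        exact le_of_mul_le_mul_left h4 hN1
      have h6 : (27 : ℝ) ^ (N + 1) * (7 / 6) ^ (14 * (N + 1)) * 6 ^ (2 * (N + 1 - 2)) =
          (27 * (7 / 6) ^ 14 * 36) *
            ((27 : ℝ) ^ N * (7 / 6) ^ (14 * N) * 6 ^ (2 * (N - 2))) := by
        have e1 : 14 * (N + 1) = 14 * N + 14 := by ring
        have e2 : 2 * (N + 1 - 2) = 2 * (N - 2) + 2 := by omega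
        rw [e1, e2, pow_succ, pow_add, pow_add]
        ring
      rw [h6]
      calc (27 * (7 / 6) ^ 14 * 36) *
            ((27 : ℝ) ^ N * (7 / 6) ^ (14 * N) * 6 ^ (2 * (N - 2)))
          < (27 * (7 / 6) ^ 14 * 36) * (N.centralBinom : ℝ) ^ 7 :=
            mul_lt_mul_of_pos_left ih (by norm_num)
        _ ≤ (11 / 3) ^ 7 * (N.centralBinom : ℝ) ^ 7 :=
            mul_le_mul_of_nonneg_right (by norm_num) (by positivity)
        _ = ((11 / 3 : ℝ) * (N.centralBinom : ℝ)) ^ 7 := by rw [mul_pow]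
        _ ≤ ((N + 1).centralBinom : ℝ) ^ 7 := pow_le_pow_left₀ (by positivity) h2 7

/-- There are seven linear orders of `3N` vertices such that every pair of disjoint `N`-sets has at least `N - 1`
descents. -/
theorem exists_orders (N : ℕ) (hN : 2 ≤ N) : ∃ π : Fin 7 → Equiv.Perm (Fin (3 * N)),
    ∀ g : Fin (3 * N) → Fin 3, cnt 1 g = N → cnt 2 g = N →
      N - 1 ≤ ∑ p, dsc (3 * N) (g ∘ π p) := by
  classical
  by_contra hcon
  push Not at hcon
  set q := 3 * N with hq
  set C : ℝ := (N.centralBinom : ℝ) with hC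
  have hCpos : 0 < C := by
    rw [hC]
    exact_mod_cast N.centralBinom_pos
  have hfac : (0 : ℝ) < (q.factorial : ℝ) := by exact_mod_cast q.factorial_pos
  set t : ℝ := 1 / 6 with ht
  -- lower bound
  have hlow : ((q.factorial : ℝ)) ^ 7 * (t ^ 2) ^ (N - 2) ≤
      ∑ π : Fin 7 → Equiv.Perm (Fin q), ∑ g : Fin q → Fin 3,
        if cnt 1 g = N ∧ cnt 2 g = N then ∏ p, (t ^ 2) ^ dsc q (g ∘ π p) else 0 := by
    have h1 : ((q.factorial : ℝ)) ^ 7 * (t ^ 2) ^ (N - 2) =
        ∑ _π : Fin 7 → Equiv.Perm (Fin q), (t ^ 2) ^ (N - 2) := by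
      rw [sum_const, card_univ, Fintype.card_fun, Fintype.card_perm, Fintype.card_fin,
        Fintype.card_fin, nsmul_eq_mul]
      push_cast
      ring
    rw [h1]
    apply sum_le_sum
    intro π _
    obtain ⟨g, hg1, hg2, hg3⟩ := hcon π
    refine le_trans ?_ (single_le_sum (f := fun g : Fin q → Fin 3 =>
      if cnt 1 g = N ∧ cnt 2 g = N then ∏ p, (t ^ 2) ^ dsc q (g ∘ π p) else 0)
      (fun g _ => by split_ifs <;> positivity) (mem_univ g))
    simp only [hg1, hg2, and_self, if_true]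
    rw [prod_pow_eq_pow_sum]
    exact pow_le_pow_of_le_one (by rw [ht]; norm_num) (by rw [ht]; norm_num) (by omega)
  -- upper bound
  have hup : (∑ π : Fin 7 → Equiv.Perm (Fin q), ∑ g : Fin q → Fin 3,
        if cnt 1 g = N ∧ cnt 2 g = N then ∏ p, (t ^ 2) ^ dsc q (g ∘ π p) else 0) * C ^ 7 ≤
      27 ^ N * ((q.factorial : ℝ) * (1 + t) ^ (2 * N)) ^ 7 := by
    rw [sum_comm, sum_mul]
    have h2 : ∀ g : Fin q → Fin 3, (∑ π : Fin 7 → Equiv.Perm (Fin q),
        if cnt 1 g = N ∧ cnt 2 g = N then ∏ p, (t ^ 2) ^ dsc q (g ∘ π p) else 0) * C ^ 7 ≤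
        ((q.factorial : ℝ) * (1 + t) ^ (2 * N)) ^ 7 := by
      intro g
      by_cases hg : cnt 1 g = N ∧ cnt 2 g = N
      · simp only [hg, and_self, if_true]
        rw [← Fintype.sum_pow (fun π : Equiv.Perm (Fin q) => (t ^ 2) ^ dsc q (g ∘ π)) 7,
          ← mul_pow]
        have h3 := avg (t := t) (by rw [ht]; norm_num) g hg.1 hg.2
        rw [← Nat.centralBinom_eq_two_mul_choose] at h3
        exact pow_le_pow_left₀ (by positivity) h3 7
      · simp only [hg, if_false, sum_const_zero, zero_mul]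
        positivity
    refine (sum_le_sum (fun g _ => h2 g)).trans (le_of_eq ?_)
    rw [sum_const, card_univ, Fintype.card_fun, Fintype.card_fin, Fintype.card_fin, nsmul_eq_mul,
      hq, pow_mul]
    push_cast
    norm_num
  have h4 := (mul_le_mul_of_nonneg_right hlow (by positivity : 0 ≤ C ^ 7)).trans hup
  have h5 : (t ^ 2) ^ (N - 2) * C ^ 7 ≤ 27 ^ N * (1 + t) ^ (14 * N) := by
    have h6 : (q.factorial : ℝ) ^ 7 * ((t ^ 2) ^ (N - 2) * C ^ 7) ≤
        (q.factorial : ℝ) ^ 7 * (27 ^ N * (1 + t) ^ (14 * N)) := by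
      calc (q.factorial : ℝ) ^ 7 * ((t ^ 2) ^ (N - 2) * C ^ 7) =
          (q.factorial : ℝ) ^ 7 * (t ^ 2) ^ (N - 2) * C ^ 7 := by ring
        _ ≤ _ := h4
        _ = _ := by
          rw [mul_pow, ← pow_mul]
          have : 2 * N * 7 = 14 * N := by ring
          rw [this]
          ring
    exact le_of_mul_le_mul_left h6 (by positivity)
  have h7 := num_aux N hN
  have h8 : (6 : ℝ) ^ (2 * (N - 2)) * ((t ^ 2) ^ (N - 2) * C ^ 7) = C ^ 7 := by
    rw [ht, ← mul_assoc, pow_mul, ← mul_pow]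
    norm_num
  have h9 : C ^ 7 ≤ 27 ^ N * (7 / 6) ^ (14 * N) * 6 ^ (2 * (N - 2)) := by
    rw [← h8]
    have h10 : (1 + t) = (7 / 6 : ℝ) := by
      rw [ht]
      norm_num
    rw [h10] at h5
    calc (6 : ℝ) ^ (2 * (N - 2)) * ((t ^ 2) ^ (N - 2) * C ^ 7) ≤
        (6 : ℝ) ^ (2 * (N - 2)) * (27 ^ N * (7 / 6) ^ (14 * N)) :=
          mul_le_mul_of_nonneg_left h5 (by positivity)
      _ = _ := by ring
  exact absurd h9 (not_le.mpr h7)

end Pool.Agent.H32.LD
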