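import Pool.Agent.H32.LD.Defs

/-!
# The polynomial `G`: recurrence and bound
-/

open Finset

set_option autoImplicit false

namespace Pool.Agent.H32.LD

theorem G_zero_right (y : ℝ) (a : ℕ) : G y a 0 = 1 := by
  unfold G
  rw [sum_range_succ']
  simp only [Nat.choose_zero_right, Nat.cast_one, pow_zero, mul_one, add_eq_right]
  apply sum_eq_zero
  intro r _
  simp

theorem G_zero_left (y : ℝ) (b : ℕ) : G y 0 b = 1 := by
  simp [G]

private lemma G_eq (y : ℝ) {a b n : ℕ} (h : a ≤ n) :
    G y a b = ∑ r ∈ range (n + 1), (a.choose r : ℝ) * (b.choose r : ℝ) * y ^ r := by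
  unfold G
  apply sum_subset
  · intro r hr
    rw [mem_range] at hr ⊢
    omega
  · intro r _ hr
    rw [mem_range, not_lt] at hr
    rw [Nat.choose_eq_zero_of_lt (by omega : a < r)]
    simp

theorem G_rec (y : ℝ) (a b : ℕ) :
    G y (a + 1) (b + 1) = G y (a + 1) b + G y a (b + 1) - (1 - y) * G y a b := by
  rw [G_eq y (le_refl (a + 1)), G_eq y (le_refl (a + 1)), G_eq y (Nat.le_succ a : a ≤ a + 1)]
  have h1 : G y a b = ∑ r ∈ range (a + 1 + 1), (a.choose r : ℝ) * (b.choose r : ℝ) * y ^ r :=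
    G_eq y (Nat.le_succ a)
  have h2 : y * G y a b = ∑ r ∈ range (a + 1 + 1),
      (((a + 1).choose r : ℝ) - a.choose r) * (((b + 1).choose r : ℝ) - b.choose r) * y ^ r := by
    rw [sum_range_succ']
    simp only [Nat.choose_zero_right, Nat.cast_one, sub_self, mul_zero, zero_mul, add_zero]
    unfold G
    rw [mul_sum]
    apply sum_congr rfl
    intro r _
    rw [Nat.choose_succ_succ a r, Nat.choose_succ_succ b r]
    push_cast
    ring
  have h3 : (1 - y) * G y a b = G y a b - y * G y a b := by ring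
  rw [h3, h2, h1, ← sum_sub_distrib, ← sum_add_distrib, ← sum_sub_distrib]
  apply sum_congr rfl
  intro r _
  ring

theorem G_nonneg {y : ℝ} (hy : 0 ≤ y) (a b : ℕ) : 0 ≤ G y a b := by
  unfold G
  exact sum_nonneg (fun r _ => by positivity)

theorem G_le {t : ℝ} (ht : 0 ≤ t) (u : ℕ) : G (t ^ 2) u u ≤ (1 + t) ^ (2 * u) := by
  have h1 : (1 + t) ^ u = ∑ r ∈ range (u + 1), (u.choose r : ℝ) * t ^ r := by
    rw [add_comm, add_pow]
    apply sum_congr rfl
    intro r _
    simp
    ring
  have h2 : (1 + t) ^ (2 * u) = (∑ r ∈ range (u + 1), (u.choose r : ℝ) * t ^ r) ^ 2 := by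
    rw [← h1, ← pow_mul, mul_comm]
  rw [h2]
  unfold G
  refine le_trans (le_of_eq (sum_congr rfl (fun r _ => ?_)))
    (sum_sq_le_sq_sum_of_nonneg (f := fun r => (u.choose r : ℝ) * t ^ r) (s := range (u + 1))
      (fun r _ => by positivity))
  ring

theorem G_one (u : ℕ) : G 1 u u = ((2 * u).choose u : ℝ) := by
  unfold G
  simp only [one_pow, mul_one]
  have h := Nat.sum_range_choose_sq u
  have h2 : ((2 * u).choose u : ℝ) = ((∑ i ∈ range (u + 1), u.choose i ^ 2 : ℕ) : ℝ) := by
    rw [h]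
  rw [h2]
  push_cast
  apply sum_congr rfl
  intro r _
  ring

end Pool.Agent.H32.LD
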