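import Pool.Agent.H32.LD.Defs

/-!
# Descents are hit by distinct elements of `X`
-/

open Finset

set_option autoImplicit false

namespace Pool.Agent.H32.LD

/-- either nothing is labelled, or there is a last labelled position -/
lemma lst_cases : ∀ (q : ℕ) (f : Fin q → Fin 3),
    ((∀ l, f l = 0) ∧ lst q f = 0 ∧ dsc q f = 0) ∨
      ∃ i, f i ≠ 0 ∧ (∀ l, i < l → f l = 0) ∧ lst q f = f i := by
  intro q
  induction q with
  | zero =>
    intro f
    exact Or.inl ⟨fun l => l.elim0, rfl, rfl⟩
  | succ q ih =>
    intro f
    by_cases h0 : f (Fin.last q) = 0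
    · rcases ih (fun i => f i.castSucc) with ⟨h1, h2, h3⟩ | ⟨i, h1, h2, h3⟩
      · left
        refine ⟨?_, ?_, ?_⟩
        · intro l
          refine Fin.lastCases h0 (fun i => h1 i) l
        · simp only [lst, h0, if_true]
          exact h2
        · simp only [dsc, h0, h3]
          simp
      · right
        refine ⟨i.castSucc, h1, ?_, ?_⟩
        · intro l
          refine Fin.lastCases (fun _ => h0) (fun l hl => ?_) l
          exact h2 l (by simpa using hl)
        · simp only [lst, h0, if_true]
          exact h3
    · right
      refine ⟨Fin.last q, h0, ?_, ?_⟩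
      · intro l hl
        exact absurd hl (not_lt.mpr (Fin.le_last l))
      · simp only [lst, if_neg h0]

lemma dsc_le_aux : ∀ (q : ℕ) (f : Fin q → Fin 3) (X : Finset (Fin q)),
    (∀ i j, i < j → f i = 2 → f j = 1 → (∀ l, i < l → l < j → f l = 0) →
      ∃ l ∈ X, i < l ∧ l ≤ j) →
    ∀ i, f i ≠ 0 → (∀ l, i < l → f l = 0) → dsc q f ≤ (X.filter (fun l => l ≤ i)).card := by
  intro q
  induction q with
  | zero =>
    intro f X _ i
    exact i.elim0
  | succ q ih =>
    intro f X hX i hi hil
    set f' : Fin q → Fin 3 := fun i => f i.castSucc with hf'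
    set X' : Finset (Fin q) := univ.filter (fun l => l.castSucc ∈ X) with hX'
    have hX'1 : ∀ i j, i < j → f' i = 2 → f' j = 1 → (∀ l, i < l → l < j → f' l = 0) →
        ∃ l ∈ X', i < l ∧ l ≤ j := by
      intro i j hij h1 h2 h3
      obtain ⟨l, hl, hl1, hl2⟩ := hX i.castSucc j.castSucc (by simpa using hij) h1 h2 (by
        intro l
        refine Fin.lastCases (fun _ h => ?_) (fun l hl1 hl2 => ?_) l
        · exact absurd h (not_lt.mpr (Fin.le_last _))
        · exact h3 l (by simpa using hl1) (by simpa using hl2))
      revert hl hl1 hl2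
      refine Fin.lastCases (fun _ _ h => ?_) (fun l hl hl1 hl2 => ?_) l
      · exfalso
        have := Fin.castSucc_lt_last j
        exact absurd (lt_of_le_of_lt h this) (lt_irrefl _)
      · exact ⟨l, by simp [hX', hl], by simpa using hl1, by simpa using hl2⟩
    have hcard : ∀ i' : Fin q, (X'.filter (fun l => l ≤ i')).card ≤
        (X.filter (fun l => l ≤ i'.castSucc)).card := by
      intro i'
      refine card_le_card_of_injOn Fin.castSucc ?_ ?_
      · intro l hl
        have hl' := mem_filter.mp (mem_coe.mp hl)
        have hl'' := (mem_filter.mp hl'.1).2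
        exact mem_coe.mpr (mem_filter.mpr ⟨hl'', by simpa using hl'.2⟩)
      · intro a _ b _ h
        exact Fin.castSucc_injective q h
    by_cases h0 : f (Fin.last q) = 0
    · -- the last position is not labelled
      revert hi hil
      refine Fin.lastCases (fun hi => absurd h0 hi) (fun i' hi hil => ?_) i
      have h1 := ih f' X' hX'1 i' hi (fun l hl => hil l.castSucc (by simpa using hl))
      have h2 : dsc (q + 1) f = dsc q f' := by
        simp only [dsc, h0]
        simp
        rfl
      rw [h2]
      exact h1.trans (hcard i')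
    · have hii : i = Fin.last q := by
        by_contra h
        exact h0 (hil _ (lt_of_le_of_ne (Fin.le_last i) h))
      subst hii
      rcases lst_cases q f' with ⟨-, h2, h3⟩ | ⟨i', h1, h2, h3⟩
      · have h4 : dsc (q + 1) f = 0 := by
          show dsc q f' + (if f (Fin.last q) = 1 ∧ lst q f' = 2 then 1 else 0) = 0
          rw [h2, h3]
          simp
        omega
      · have h4 := ih f' X' hX'1 i' h1 h2
        have h5 : dsc (q + 1) f =
            dsc q f' + (if f (Fin.last q) = 1 ∧ lst q f' = 2 then 1 else 0) := rfl
        rw [h5]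
        by_cases h6 : f (Fin.last q) = 1 ∧ lst q f' = 2
        · rw [if_pos h6]
          obtain ⟨l, hl, hl1, hl2⟩ := hX i'.castSucc (Fin.last q) (Fin.castSucc_lt_last i')
            (by rw [← h6.2, h3]) h6.1 (by
              intro l
              refine Fin.lastCases (fun _ h => absurd h (lt_irrefl _)) (fun l hl1 _ => ?_) l
              exact h2 l (by simpa using hl1))
          have h7 : insert l (X.filter (fun l => l ≤ i'.castSucc)) ⊆
              X.filter (fun l => l ≤ Fin.last q) := by
            intro x hx
            rcases mem_insert.mp hx with rfl | hx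
            · exact mem_filter.mpr ⟨hl, hl2⟩
            · exact mem_filter.mpr ⟨(mem_filter.mp hx).1, Fin.le_last x⟩
          have h8 := card_le_card h7
          rw [card_insert_of_notMem (by
            intro h
            exact absurd (mem_filter.mp h).2 (not_le.mpr hl1))] at h8
          have h9 := hcard i'
          omega
        · rw [if_neg h6, add_zero]
          refine (h4.trans (hcard i')).trans (card_le_card ?_)
          intro x hx
          exact mem_filter.mpr ⟨(mem_filter.mp hx).1, Fin.le_last x⟩

/-- if every descent `(i, j)` contains an element of `X` in `(i, j]`, then `dsc f ≤ |X|` -/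
theorem dsc_le {q : ℕ} (f : Fin q → Fin 3) (X : Finset (Fin q))
    (hX : ∀ i j, i < j → f i = 2 → f j = 1 → (∀ l, i < l → l < j → f l = 0) →
      ∃ l ∈ X, i < l ∧ l ≤ j) : dsc q f ≤ X.card := by
  rcases lst_cases q f with ⟨-, -, h⟩ | ⟨i, h1, h2, -⟩
  · omega
  · exact (dsc_le_aux q f X hX i h1 h2).trans (card_le_card (filter_subset _ _))

end Pool.Agent.H32.LD
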