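import Pool.Agent.H32.LD.Gp

/-!
# Generating function of labelled words
-/

open Finset

set_option autoImplicit false

namespace Pool.Agent.H32.LD

/-- sum over all labellings with `a` ones and `b` twos -/
noncomputable def SS (y : ℝ) (q a b : ℕ) : ℝ :=
  ∑ f : Fin q → Fin 3, if cnt 1 f = a ∧ cnt 2 f = b then y ^ dsc q f else 0

/-- the same over the labellings with last label `2` -/
noncomputable def S2 (y : ℝ) (q a b : ℕ) : ℝ :=
  ∑ f : Fin q → Fin 3, if cnt 1 f = a ∧ cnt 2 f = b ∧ lst q f = 2 then y ^ dsc q f else 0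

lemma cnt_succ {q : ℕ} (k : Fin 3) (f : Fin (q + 1) → Fin 3) :
    cnt k f = cnt k (fun i => f (Fin.castSucc i)) + if f (Fin.last q) = k then 1 else 0 := by
  unfold cnt
  rw [Fin.univ_castSuccEmb, filter_cons, ← Fin.coe_castSuccEmb]
  have h1 : (filter (fun i => f i = k) (map Fin.castSuccEmb univ)).card =
      (filter (fun i => f (Fin.castSuccEmb i) = k) univ).card := by
    rw [filter_map, card_map]
    rfl
  split_ifs with h
  · rw [card_cons, h1]
  · rw [h1, add_zero]

lemma sum_snoc {q : ℕ} (F : (Fin (q + 1) → Fin 3) → ℝ) :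
    ∑ f : Fin (q + 1) → Fin 3, F f =
      ∑ x : Fin 3, ∑ f : Fin q → Fin 3, F (Fin.snoc f x) := by
  rw [← (Fin.snocEquiv (fun _ => Fin 3)).sum_comp, Fintype.sum_prod_type]
  rfl

lemma snoc_cs {q : ℕ} (f : Fin q → Fin 3) (x : Fin 3) :
    (fun i => (Fin.snoc f x : Fin (q + 1) → Fin 3) (Fin.castSucc i)) = f := by
  funext i
  simp

lemma cnt_snoc {q : ℕ} (k x : Fin 3) (f : Fin q → Fin 3) :
    cnt k (Fin.snoc f x : Fin (q + 1) → Fin 3) = cnt k f + if x = k then 1 else 0 := by
  rw [cnt_succ, snoc_cs, Fin.snoc_last]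

lemma lst_snoc {q : ℕ} (x : Fin 3) (f : Fin q → Fin 3) :
    lst (q + 1) (Fin.snoc f x : Fin (q + 1) → Fin 3) = if x = 0 then lst q f else x := by
  simp only [lst, snoc_cs, Fin.snoc_last]

lemma dsc_snoc {q : ℕ} (x : Fin 3) (f : Fin q → Fin 3) :
    dsc (q + 1) (Fin.snoc f x : Fin (q + 1) → Fin 3) =
      dsc q f + if x = 1 ∧ lst q f = 2 then 1 else 0 := by
  simp only [dsc, snoc_cs, Fin.snoc_last]

lemma SS_zero (y : ℝ) (a b : ℕ) : SS y 0 a b = if a = 0 ∧ b = 0 then 1 else 0 := by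
  simp [SS, cnt, dsc, eq_comm]

lemma S2_zero (y : ℝ) (a b : ℕ) : S2 y 0 a b = 0 := by
  simp [S2, lst]

private lemma SS_step (y : ℝ) (q a b : ℕ) : SS y (q + 1) a b = SS y q a b +
    (∑ f : Fin q → Fin 3, if cnt 1 f + 1 = a ∧ cnt 2 f = b then
      y ^ (dsc q f + if lst q f = 2 then 1 else 0) else 0) +
    ∑ f : Fin q → Fin 3, if cnt 1 f = a ∧ cnt 2 f + 1 = b then y ^ dsc q f else 0 := by
  unfold SS
  rw [sum_snoc, Fin.sum_univ_three]
  refine congrArg₂ (· + ·) (congrArg₂ (· + ·) ?_ ?_) ?_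
  · exact sum_congr rfl (fun f _ => by simp [cnt_snoc, dsc_snoc])
  · exact sum_congr rfl (fun f _ => by simp [cnt_snoc, dsc_snoc])
  · exact sum_congr rfl (fun f _ => by simp [cnt_snoc, dsc_snoc])

private lemma S2_step (y : ℝ) (q a b : ℕ) : S2 y (q + 1) a b = S2 y q a b +
    ∑ f : Fin q → Fin 3, if cnt 1 f = a ∧ cnt 2 f + 1 = b then y ^ dsc q f else 0 := by
  unfold S2
  rw [sum_snoc, Fin.sum_univ_three]
  have h1 : (∑ f : Fin q → Fin 3, if cnt 1 (Fin.snoc f 1 : Fin (q + 1) → Fin 3) = a ∧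
      cnt 2 (Fin.snoc f 1 : Fin (q + 1) → Fin 3) = b ∧
      lst (q + 1) (Fin.snoc f 1 : Fin (q + 1) → Fin 3) = 2 then
      y ^ dsc (q + 1) (Fin.snoc f 1 : Fin (q + 1) → Fin 3) else 0) = 0 := by
    apply sum_eq_zero
    intro f _
    simp [lst_snoc]
  rw [h1, add_zero]
  refine congrArg₂ (· + ·) ?_ ?_
  · exact sum_congr rfl (fun f _ => by simp [cnt_snoc, dsc_snoc, lst_snoc])
  · exact sum_congr rfl (fun f _ => by simp [cnt_snoc, dsc_snoc, lst_snoc])

private lemma up_one (y : ℝ) (q a b : ℕ) :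
    (∑ f : Fin q → Fin 3, if cnt 1 f + 1 = a + 1 ∧ cnt 2 f = b then
      y ^ (dsc q f + if lst q f = 2 then 1 else 0) else 0) =
      SS y q a b + (y - 1) * S2 y q a b := by
  unfold SS S2
  rw [mul_sum, ← sum_add_distrib]
  apply sum_congr rfl
  intro f _
  by_cases h1 : cnt 1 f = a ∧ cnt 2 f = b
  · by_cases h2 : lst q f = 2
    · simp [h1, h2, pow_succ]
      ring
    · simp [h1, h2]
  · have h3 : ¬ (cnt 1 f + 1 = a + 1 ∧ cnt 2 f = b) := by
      rw [Nat.add_right_cancel_iff]
      exact h1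
    have h4 : ¬ (cnt 1 f = a ∧ cnt 2 f = b ∧ lst q f = 2) := fun h => h1 ⟨h.1, h.2.1⟩
    rw [if_neg h1, if_neg h3, if_neg h4]
    ring

private lemma up_two (y : ℝ) (q a b : ℕ) :
    (∑ f : Fin q → Fin 3, if cnt 1 f = a ∧ cnt 2 f + 1 = b + 1 then y ^ dsc q f else 0) =
      SS y q a b := by
  unfold SS
  apply sum_congr rfl
  intro f _
  simp only [Nat.add_right_cancel_iff]

private lemma up_one_zero (y : ℝ) (q b : ℕ) :
    (∑ f : Fin q → Fin 3, if cnt 1 f + 1 = 0 ∧ cnt 2 f = b then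
      y ^ (dsc q f + if lst q f = 2 then 1 else 0) else 0) = 0 := by
  apply sum_eq_zero
  intro f _
  simp

private lemma up_two_zero (y : ℝ) (q a : ℕ) :
    (∑ f : Fin q → Fin 3, if cnt 1 f = a ∧ cnt 2 f + 1 = 0 then y ^ dsc q f else 0) = 0 := by
  apply sum_eq_zero
  intro f _
  simp

theorem closed_form (y : ℝ) : ∀ q : ℕ, (∀ a b, SS y q a b = (q.choose (a + b) : ℝ) * G y a b) ∧
    (∀ a b, S2 y q a (b + 1) = (q.choose (a + b + 1) : ℝ) * G y a b) ∧ ∀ a, S2 y q a 0 = 0 := by
  intro q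
  induction q with
  | zero =>
    refine ⟨?_, ?_, ?_⟩
    · intro a b
      rw [SS_zero]
      rcases a with _ | a
      · rcases b with _ | b
        · simp [G_zero_left]
        · simp
      · rw [Nat.choose_eq_zero_of_lt (by omega)]
        simp
    · intro a b
      rw [S2_zero]
      simp
    · intro a
      exact S2_zero y a 0
  | succ q ih =>
    obtain ⟨ih1, ih2, ih3⟩ := ih
    refine ⟨?_, ?_, ?_⟩
    · intro a b
      rw [SS_step]
      rcases a with _ | a
      · rw [up_one_zero]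
        rcases b with _ | b
        · rw [up_two_zero, ih1]
          simp
        · rw [up_two, ih1, ih1, G_zero_left, G_zero_left, zero_add, zero_add,
            Nat.choose_succ_succ q b]
          push_cast
          ring
      · rw [up_one]
        rcases b with _ | b
        · rw [up_two_zero, ih1, ih1, ih3, G_zero_right, G_zero_right]
          simp only [add_zero, mul_zero, mul_one]
          rw [Nat.choose_succ_succ q a]
          push_cast
          ring
        · rw [up_two, ih1, ih1, ih1, ih2, G_rec]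
          have h1 : a + 1 + (b + 1) = (a + b + 1) + 1 := by ring
          have h2 : a + (b + 1) = a + b + 1 := by ring
          have h3 : a + 1 + b = a + b + 1 := by ring
          rw [h1, h2, h3, Nat.choose_succ_succ q (a + b + 1)]
          push_cast
          ring
    · intro a b
      rw [S2_step, up_two, ih2, ih1, Nat.choose_succ_succ q (a + b)]
      push_cast
      ring
    · intro a
      rw [S2_step, up_two_zero, ih3]
      ring

end Pool.Agent.H32.LD
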