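import Pool.Agent.H97.HY.Lvl
import Pool.Agent.H97.HY.ConA
import Pool.Agent.H97.HY.Idn

/-!
# LinearDegree with linear orders: the data, the states, composition of relations

`D` passes, each a permutation `pi p` of the `q` hyperplanes.  The unit `(p, j)` has as tail the
hyperplane at position `j` and, at the level `J1`, as head the hyperplane at the last position
before `j` which is outside `J1`.  So for each set `J1` there is an old tower `T.to J1`, with tail and
exponents independent of `J1`.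
-/

open Metric Set Filter Topology Finset

set_option autoImplicit false

namespace Pool.Agent.H32.LD

open Pool.Agent.H97.HY

/-- the data: `q` hyperplanes in general position, `D` linear orders, exponents `≥ D + 1` -/
structure Tw (N q D d : ℕ) where
  H : Fin q → Fin (N + 1) → ℂ
  ord : Fin D → Equiv.Perm (Fin q)
  a : Fin q → ℕ
  gen : GenPos H
  a_ge : ∀ i, D + 1 ≤ a i
  a_sum : ∑ i, a i = d

/-- the unit of pass `p`, position `j` -/
def idx {q D : ℕ} (p : Fin D) (j : Fin q) : Fin (D * q) := finProdFinEquiv (p, j)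

lemma idx_val {q D : ℕ} (p : Fin D) (j : Fin q) : ((idx p j : Fin (D * q)) : ℕ) = j + q * p := by
  simp [idx]

lemma exists_idx {q D : ℕ} (k : Fin (D * q)) : ∃ (p : Fin D) (j : Fin q), k = idx p j :=
  ⟨(finProdFinEquiv.symm k).1, (finProdFinEquiv.symm k).2,
    (finProdFinEquiv.apply_symm_apply k).symm⟩

lemma idx_inj {q D : ℕ} {p p' : Fin D} {j j' : Fin q} (h : idx p j = idx p' j') :
    p = p' ∧ j = j' := by
  have := finProdFinEquiv.injective h
  exact ⟨congrArg Prod.fst this, congrArg Prod.snd this⟩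

/-- the last position before `j` outside `J1`; `j` itself if there is none -/
def Tw.hp {N q D d : ℕ} (T : Tw N q D d) (J1 : Finset (Fin q)) (p : Fin D) (j : Fin q) : Fin q :=
  if h : (univ.filter (fun i : Fin q => i < j ∧ T.ord p i ∉ J1)).Nonempty then
    (univ.filter (fun i : Fin q => i < j ∧ T.ord p i ∉ J1)).max' h else j

lemma hp_spec {N q D d : ℕ} (T : Tw N q D d) {J1 : Finset (Fin q)} {p : Fin D} {i j : Fin q}
    (hij : i < j) (hi : T.ord p i ∉ J1) :
    T.hp J1 p j < j ∧ T.ord p (T.hp J1 p j) ∉ J1 ∧ i ≤ T.hp J1 p j := by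
  have hmem : i ∈ univ.filter (fun i : Fin q => i < j ∧ T.ord p i ∉ J1) := by
    simp [hij, hi]
  have hne : (univ.filter (fun i : Fin q => i < j ∧ T.ord p i ∉ J1)).Nonempty := ⟨i, hmem⟩
  have h1 : T.hp J1 p j = (univ.filter (fun i : Fin q => i < j ∧ T.ord p i ∉ J1)).max' hne := by
    unfold Tw.hp
    rw [dif_pos hne]
  have h2 := Finset.max'_mem _ hne
  rw [← h1] at h2
  have h3 := Finset.le_max' _ i hmem
  rw [← h1] at h3
  have h4 := (Finset.mem_filter.mp h2).2
  exact ⟨h4.1, h4.2, h3⟩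

/-- the tail of a unit -/
def Tw.tail {N q D d : ℕ} (T : Tw N q D d) (k : Fin (D * q)) : Fin q :=
  T.ord (finProdFinEquiv.symm k).1 (finProdFinEquiv.symm k).2

lemma tail_idx {N q D d : ℕ} (T : Tw N q D d) (p : Fin D) (j : Fin q) :
    T.tail (idx p j) = T.ord p j := by
  simp [Tw.tail, idx]

/-- the old tower of the level `J1` -/
def Tw.to {N q D d : ℕ} (T : Tw N q D d) (J1 : Finset (Fin q)) : Tow N q (D * q) d where
  H := T.H
  tail := T.tail
  head := fun k => T.ord (finProdFinEquiv.symm k).1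
    (T.hp J1 (finProdFinEquiv.symm k).1 (finProdFinEquiv.symm k).2)
  a := T.a
  gen := T.gen
  a_ge := by
    intro i
    refine le_trans (Nat.add_le_add_right ?_ 1) (T.a_ge i)
    have h1 : (univ.filter (fun k : Fin (D * q) => T.tail k = i)).card ≤
        (univ : Finset (Fin D)).card := by
      refine Finset.card_le_card_of_injOn (fun k => (finProdFinEquiv.symm k).1)
        (fun _ _ => Finset.mem_coe.mpr (Finset.mem_univ _)) ?_
      intro k hk k' hk' h
      have h2 := (Finset.mem_filter.mp (Finset.mem_coe.mp hk)).2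
      have h3 := (Finset.mem_filter.mp (Finset.mem_coe.mp hk')).2
      obtain ⟨p, j, rfl⟩ := exists_idx k
      obtain ⟨p', j', rfl⟩ := exists_idx k'
      rw [tail_idx] at h2 h3
      have h4 : p = p' := by simpa [idx] using h
      subst h4
      rw [← h3] at h2
      rw [(T.ord p).injective h2]
    rw [Finset.card_univ, Fintype.card_fin] at h1
    exact h1
  a_sum := T.a_sum

lemma to_tail_idx {N q D d : ℕ} (T : Tw N q D d) (J1 : Finset (Fin q)) (p : Fin D) (j : Fin q) :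
    (T.to J1).tail (idx p j) = T.ord p j := tail_idx T p j

lemma to_head_idx {N q D d : ℕ} (T : Tw N q D d) (J1 : Finset (Fin q)) (p : Fin D) (j : Fin q) :
    (T.to J1).head (idx p j) = T.ord p (T.hp J1 p j) := by
  show T.ord (finProdFinEquiv.symm (finProdFinEquiv (p, j))).1
    (T.hp J1 (finProdFinEquiv.symm (finProdFinEquiv (p, j))).1
      (finProdFinEquiv.symm (finProdFinEquiv (p, j))).2) = _
  rw [finProdFinEquiv.symm_apply_apply]

/-- remaining weights -/
def Tw.W {N q D d : ℕ} (T : Tw N q D d) (τ : ℕ) (i : Fin q) : ℕ := (T.to ∅).W τ i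

lemma to_W {N q D d : ℕ} (T : Tw N q D d) (J1 : Finset (Fin q)) (τ : ℕ) :
    (T.to J1).W τ = T.W τ := rfl

/-- the state -/
structure Sta2 {N q D d : ℕ} (T : Tw N q D d) (f : ℂ → Fin (N + 1) → ℂ) (J : Finset (Fin q))
    (τ0 : ℕ) (X : Finset (Fin (D * q))) (s : MvPolynomial (Fin (N + 1)) ℂ) : Prop where
  bcurve : BCurve f
  mem_iff : ∀ i, i ∈ J ↔ ∀ z, lin (T.H i) (f z) = 0
  con : Con T.H f Jᶜ (T.W τ0) s
  rel : ∀ (p : Fin D) (i j : Fin q), i < j → T.ord p i ∉ J → T.ord p j ∉ J →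
    ((idx p j : Fin (D * q)) : ℕ) < τ0 → (∀ l : Fin q, i < l → l ≤ j → idx p l ∉ X) →
    Con T.H f {T.ord p j} (fun _ => 1) (linP (T.H (T.ord p i)) ^ (d ^ ((j : ℕ) - i)))

/-- emptiness -/
def Emp2 {N q D d : ℕ} (T : Tw N q D d) (s : MvPolynomial (Fin (N + 1)) ℂ) (J : Finset (Fin q))
    (τ0 : ℕ) (X : Finset (Fin (D * q))) : Prop := ∀ f, ¬ Sta2 T f J τ0 X s

/-- outer claim -/
def OC2 {N q D d : ℕ} (T : Tw N q D d) (P : Finset (Finset (Fin q))) : Prop :=
  ∃ s : MvPolynomial (Fin (N + 1)) ℂ, s.IsHomogeneous d ∧ ∀ J, J ∉ P → ∀ τ0 ≤ D * q,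
    ∀ X : Finset (Fin (D * q)), X.card + 1 ≤ J.card → Emp2 T s J τ0 X

/-- inner claim -/
def IC2 {N q D d : ℕ} (T : Tw N q D d) (P : Finset (Finset (Fin q))) (J1 : Finset (Fin q))
    (τ : ℕ) : Prop :=
  ∃ s : MvPolynomial (Fin (N + 1)) ℂ, s.IsHomogeneous d ∧
    (∀ J, J ∉ P → J ≠ J1 → ∀ τ0 ≤ D * q, ∀ X : Finset (Fin (D * q)), X.card + 1 ≤ J.card →
      Emp2 T s J τ0 X) ∧
    ∀ τ0, τ ≤ τ0 → τ0 ≤ D * q → ∀ X : Finset (Fin (D * q)), X.card + 1 ≤ J1.card →
      Emp2 T s J1 τ0 X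

/-- the winning property -/
def Winning2 {N q D d : ℕ} (T : Tw N q D d) : Prop :=
  ∀ (s : MvPolynomial (Fin (N + 1)) ℂ) (J : Finset (Fin q)) (X : Finset (Fin (D * q))),
    X.card + 1 ≤ J.card → Emp2 T s J (D * q) X

/-- the exponents sum to at least one -/
lemma d_pos {N q D d : ℕ} (T : Tw N q D d) (i : Fin q) : 1 ≤ d := by
  have h1 : 1 ≤ T.a i := le_trans (Nat.le_add_left 1 _) (T.a_ge i)
  have h2 : T.a i ≤ ∑ i, T.a i :=
    Finset.single_le_sum (fun _ _ => Nat.zero_le _) (Finset.mem_univ _)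
  rw [T.a_sum] at h2
  exact h1.trans h2

/-! ### relations: a higher power, composition -/

theorem con_pow_mono {N q : ℕ} {H : Fin q → Fin (N + 1) → ℂ} {f : ℂ → Fin (N + 1) → ℂ}
    {t : Fin q} {c : Fin (N + 1) → ℂ} {e e' : ℕ} (he : e ≤ e')
    (h : Con H f {t} (fun _ => 1) (linP c ^ e)) :
    Con H f {t} (fun _ => 1) (linP c ^ e') := by
  intro z0
  obtain ⟨i, hc, Q, hQ, hs⟩ := h z0
  refine ⟨i, hc, fun z => lin c (aff f i z) ^ (e' - e) * Q z,
    ((lin_aff_diff hc c).pow _).mul hQ, ?_⟩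
  intro z hz
  have h1 := hs z hz
  rw [map_pow, eval_linP] at h1 ⊢
  have h2 : lin c (aff f i z) ^ e' = lin c (aff f i z) ^ (e' - e) * lin c (aff f i z) ^ e := by
    rw [← pow_add, Nat.sub_add_cancel he]
  rw [h2, h1, mul_assoc]

theorem con_trans {N q : ℕ} {H : Fin q → Fin (N + 1) → ℂ} {f : ℂ → Fin (N + 1) → ℂ}
    {t y : Fin q} {c : Fin (N + 1) → ℂ} {e1 e2 : ℕ} (he : 1 ≤ e2)
    (h1 : Con H f {t} (fun _ => 1) (linP (H y) ^ e1))
    (h2 : Con H f {y} (fun _ => 1) (linP c ^ e2)) :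
    Con H f {t} (fun _ => 1) (linP c ^ (e1 * e2)) := by
  intro z0
  obtain ⟨i1, hc1, Q1, hQ1, hs1⟩ := h1 z0
  obtain ⟨i2, hc2, Q2, hQ2, hs2⟩ := h2 z0
  refine ⟨i1, hc1, fun z => ((f z i2 / f z i1) ^ (e2 - 1) * Q2 z) ^ e1 * Q1 z,
    ((((hc1.hol i2).pow _).mul hQ2).pow _).mul hQ1, ?_⟩
  intro z hz
  have g1 := hs1 z hz
  have g2 := hs2 z hz
  rw [map_pow, eval_linP, Finset.prod_singleton, pow_one] at g1 g2 ⊢
  have hn1 := hc1.ne z hz
  have hn2 := hc2.ne z hz
  have hr : ∀ v : Fin (N + 1) → ℂ,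
      lin v (aff f i1 z) = f z i2 / f z i1 * lin v (aff f i2 z) := by
    intro v
    rw [lin_aff, lin_aff]
    field_simp
  have key : lin c (aff f i1 z) ^ e2 =
      (f z i2 / f z i1) ^ (e2 - 1) * Q2 z * lin (H y) (aff f i1 z) := by
    rw [hr c, hr (H y), mul_pow, g2]
    have : (f z i2 / f z i1) ^ e2 = (f z i2 / f z i1) ^ (e2 - 1) * (f z i2 / f z i1) := by
      rw [← pow_succ, Nat.sub_add_cancel he]
    rw [this]
    ring
  calc lin c (aff f i1 z) ^ (e1 * e2)
      = (lin c (aff f i1 z) ^ e2) ^ e1 := by rw [← pow_mul, mul_comm]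
    _ = ((f z i2 / f z i1) ^ (e2 - 1) * Q2 z) ^ e1 * (lin (H y) (aff f i1 z) ^ e1) := by
        rw [key, mul_pow]
    _ = _ := by rw [g1]; ring

end Pool.Agent.H32.LD
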