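import Pool.Agent.H32.LD.Tw
import Pool.Agent.H97.HY.ConL
import Pool.Agent.H97.HY.LimV
import Pool.Agent.H97.HY.Edge

/-!
# LinearDegree with linear orders: transition and inner step
-/

open Metric Set Filter Topology Finset

set_option autoImplicit false

namespace Pool.Agent.H32.LD

open Pool.Agent.H97.HY

private lemma twa_min_id {N q M d : ℕ} (T : Tow N q M d) (J1 : Finset (Fin q)) (τ : Fin M)
    {i : Fin q} (hi : i ∉ J1ᶜ) : T.b J1 τ i = 0 :=
  b_mem T J1 τ (by simpa using hi)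

theorem transition2 {N q D d : ℕ} (T : Tw N q D d) (J1 : Finset (Fin q)) (τ : Fin (D * q))
    (ht : (T.to J1).tail τ ∉ J1) (hh : (T.to J1).head τ ∉ J1)
    (hth : (T.to J1).tail τ ≠ (T.to J1).head τ)
    (s' : MvPolynomial (Fin (N + 1)) ℂ) (X : Finset (Fin (D * q))) (τ0 : ℕ) (hτ0 : (τ : ℕ) ≤ τ0)
    (U : Ultrafilter ℕ) (δ : ℕ → ℂ) (hδ : Tendsto δ (U : Filter ℕ) (𝓝 0)) (hδ0 : ∀ k, δ k ≠ 0)
    (f : ℕ → ℂ → Fin (N + 1) → ℂ)
    (hst : ∀ᶠ k in (U : Filter ℕ),
      Sta2 T (f k) J1 τ0 X (prodP T.H ((T.to J1).b J1 τ) + MvPolynomial.C (δ k) * s')) :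
    ∃ (g : ℂ → Fin (N + 1) → ℂ) (J' : Finset (Fin q)), J1 ⊆ J' ∧
      (((τ : ℕ) < τ0 ∧ Sta2 T g J' τ0 X s') ∨
        (τ0 = τ ∧ J' ≠ J1 ∧ Sta2 T g J' (τ + 1) (insert τ X) s') ∨
        (τ0 = τ ∧ J' = J1 ∧ Sta2 T g J1 (τ + 1) X s')) := by
  classical
  obtain ⟨g, hg⟩ := exists_limit_bcurve U f (hst.mono (fun _ h => h.bcurve))
  have hchU : ∀ z0, ∀ᶠ k in (U : Filter ℕ), ∃ i, Chart (f k) z0 i :=
    fun z0 => hst.mono (fun _ h => h.bcurve.chart z0)
  set J' : Finset (Fin q) := Finset.univ.filter (fun i => ∀ z, lin (T.H i) (g z) = 0) with hJ'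
  have hmem : ∀ i, i ∈ J' ↔ ∀ z, lin (T.H i) (g z) = 0 := by
    intro i
    simp [hJ']
  have hsub : J1 ⊆ J' := by
    intro i hi
    rw [hmem]
    exact hg.lin_eq_zero hchU (T.H i) (fun z => hst.mono (fun _ h => (h.mem_iff i).mp hi z))
  have hnv : ∀ j, j ∉ J' → ∃ z, lin (T.H j) (g z) ≠ 0 := by
    intro j hj
    rw [hmem] at hj
    push Not at hj
    exact hj
  have hcompl : J'ᶜ ⊆ J1ᶜ := Finset.compl_subset_compl.mpr hsub
  have hcon1 : Con T.H g J'ᶜ (fun i => min (T.W τ0 i) ((T.to J1).b J1 τ i)) s' := by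
    refine con_limit_const hg T.H _ s' (A := J1ᶜ) ?_ hcompl
      (fun j hj => hnv j (by simpa using hj))
    filter_upwards [hst] with k hk
    exact con_step (hδ0 k) (fun i hi => twa_min_id (T.to J1) J1 τ hi) hk.con
  -- old relations
  have hrel : ∀ (p : Fin D) (i j : Fin q), i < j → T.ord p i ∉ J' → T.ord p j ∉ J' →
      ((idx p j : Fin (D * q)) : ℕ) < τ0 → (∀ l : Fin q, i < l → l ≤ j → idx p l ∉ X) →
      Con T.H g {T.ord p j} (fun _ => 1) (linP (T.H (T.ord p i)) ^ (d ^ ((j : ℕ) - i))) := by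
    intro p i j hij hi hj hlt hX
    refine con_limit_const hg T.H _ _ (A := {T.ord p j}) ?_ (Finset.Subset.refl _) ?_
    · filter_upwards [hst] with l hl
      exact hl.rel p i j hij (fun h => hi (hsub h)) (fun h => hj (hsub h)) hlt hX
    · intro y hy
      rw [Finset.mem_singleton] at hy
      rw [hy]
      exact hnv _ hj
  refine ⟨g, J', hsub, ?_⟩
  rcases Nat.lt_or_ge (τ : ℕ) τ0 with hlt | hge
  · left
    refine ⟨hlt, hg.bcurve, hmem, ?_, hrel⟩
    refine hcon1.mono (Finset.Subset.refl _) (fun i hi => ?_)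
    have hiJ : i ∉ J1 := fun h => (by simpa using hi : i ∉ J') (hsub h)
    exact min_W_b_eq (T.to J1) J1 τ hh hlt hiJ
  · right
    have heq : τ0 = τ := le_antisymm hge hτ0
    subst heq
    have hcon2 : Con T.H g J'ᶜ (T.W ((τ : ℕ) + 1)) s' := by
      refine hcon1.mono (Finset.Subset.refl _) (fun i hi => ?_)
      have hiJ : i ∉ J1 := fun h => (by simpa using hi : i ∉ J') (hsub h)
      exact min_W_b_ge (T.to J1) J1 τ hh hiJ
    by_cases hJJ : J' = J1
    · right
      refine ⟨rfl, hJJ, ?_⟩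
      have hcon3 : Con T.H g J1ᶜ (T.W (τ : ℕ)) (prodP T.H ((T.to J1).b J1 τ)) := by
        refine con_limit hg T.H _ _ s' (A := J1ᶜ) hδ (hst.mono (fun _ h => h.con))
          (Finset.Subset.refl _) (fun j hj => hnv j ?_)
        rw [hJJ]
        simpa using hj
      have hnew : Con T.H g {(T.to J1).tail τ} (fun _ => 1)
          (linP (T.H ((T.to J1).head τ)) ^ d) := by
        refine new_edge hg.bcurve.chart (A := J1ᶜ) (fun j hj => hnv j ?_) (by simpa using ht)
          (by simpa using hh) hth (fun i hi => twa_min_id (T.to J1) J1 τ hi) ?_ ?_ ?_ ?_ hcon3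
        · rw [hJJ]
          simpa using hj
        · intro i hi hit hih
          rw [b_other (T.to J1) J1 τ (by simpa using hi) hih, W_succ_ne (T.to J1) τ hit, to_W]
        · rw [b_other (T.to J1) J1 τ ht hth, W_succ_tail, to_W]
        · exact b_head_ge (T.to J1) J1 τ hh τ
        · exact (b_le (T.to J1) J1 τ _).trans (Nat.le_add_right _ _)
      refine ⟨hg.bcurve, ?_, ?_, ?_⟩
      · rw [← hJJ]
        exact hmem
      · rw [← hJJ]
        exact hcon2
      · intro p i j hij hi hj hlt hX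
        rcases Nat.lt_succ_iff_lt_or_eq.mp hlt with hk' | hk'
        · exact hrel p i j hij (by rw [hJJ]; exact hi) (by rw [hJJ]; exact hj) hk' hX
        · have hkτ : idx p j = τ := Fin.ext hk'
          obtain ⟨h1, h2, h3⟩ := hp_spec T hij hi
          rw [← hkτ, to_tail_idx, to_head_idx] at hnew
          have hd := d_pos T j
          set y := T.hp J1 p j with hy
          rcases eq_or_lt_of_le h3 with h4 | h4
          · rw [← h4] at hnew
            refine con_pow_mono ?_ hnew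
            calc d = d ^ 1 := (pow_one d).symm
              _ ≤ d ^ ((j : ℕ) - i) := Nat.pow_le_pow_right hd (by
                  have : (i : ℕ) < j := hij
                  omega)
          · have hlt2 : ((idx p y : Fin (D * q)) : ℕ) < (τ : ℕ) := by
              rw [← hkτ, idx_val, idx_val]
              have : (y : ℕ) < j := h1
              omega
            have hold := hrel p i y h4 (by rw [hJJ]; exact hi) (by rw [hJJ]; exact h2) hlt2
              (fun l hl1 hl2 => hX l hl1 (hl2.trans h1.le))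
            have hcomp := con_trans (Nat.one_le_pow _ _ hd) hnew hold
            refine con_pow_mono ?_ hcomp
            have h5 : (i : ℕ) < y := h4
            have h6 : (y : ℕ) < j := h1
            calc d * d ^ ((y : ℕ) - i) = d ^ ((y : ℕ) - i + 1) := by rw [pow_succ]; ring
              _ ≤ d ^ ((j : ℕ) - i) := Nat.pow_le_pow_right hd (by omega)
    · left
      refine ⟨rfl, hJJ, hg.bcurve, hmem, hcon2, ?_⟩
      intro p i j hij hi hj hlt hX
      rcases Nat.lt_succ_iff_lt_or_eq.mp hlt with hk' | hk'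
      · exact hrel p i j hij hi hj hk'
          (fun l hl1 hl2 h => hX l hl1 hl2 (Finset.mem_insert_of_mem h))
      · have hkτ : idx p j = τ := Fin.ext hk'
        exact absurd (Finset.mem_insert.mpr (Or.inl hkτ)) (hX j hij le_rfl)

/-- the state does not notice a unit whose tail is in `J1` or which has no head -/
private lemma twa_skip {N q D d : ℕ} (T : Tw N q D d) (J1 : Finset (Fin q)) (τ : Fin (D * q))
    (hcase : (T.to J1).tail τ ∈ J1 ∨ (T.to J1).head τ ∈ J1 ∨
      (T.to J1).tail τ = (T.to J1).head τ)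
    {s' : MvPolynomial (Fin (N + 1)) ℂ} {X : Finset (Fin (D * q))} {f : ℂ → Fin (N + 1) → ℂ}
    (hf : Sta2 T f J1 τ X s') : Sta2 T f J1 (τ + 1) X s' := by
  refine ⟨hf.bcurve, hf.mem_iff, ?_, ?_⟩
  · exact hf.con.mono (Finset.Subset.refl _)
      (fun i _ => W_anti (T.to ∅) (Nat.le_succ _) i)
  · intro p i j hij hi hj hlt hX
    rcases Nat.lt_succ_iff_lt_or_eq.mp hlt with hk' | hk'
    · exact hf.rel p i j hij hi hj hk' hX
    · have hkτ : idx p j = τ := Fin.ext hk'
      obtain ⟨h1, h2, -⟩ := hp_spec T hij hi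
      rw [← hkτ, to_tail_idx, to_head_idx] at hcase
      rcases hcase with h | h | h
      · exact absurd h hj
      · exact absurd h h2
      · exact absurd ((T.ord p).injective h) (ne_of_gt h1)

theorem inner_step2 {N q D d : ℕ} (T : Tw N q D d) (P : Finset (Finset (Fin q)))
    (J1 : Finset (Fin q)) (hP1 : ∀ J : Finset (Fin q), J.card < J1.card → J ∈ P)
    (hP2 : ∀ J ∈ P, J.card ≤ J1.card) (τ : Fin (D * q)) (h : IC2 T P J1 (τ + 1)) :
    IC2 T P J1 τ := by
  classical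
  obtain ⟨s', hs'd, hs1, hs2⟩ := h
  by_cases hcase : (T.to J1).tail τ ∈ J1 ∨ (T.to J1).head τ ∈ J1 ∨
      (T.to J1).tail τ = (T.to J1).head τ
  · refine ⟨s', hs'd, hs1, ?_⟩
    intro τ0 h1 h2 X hX f hf
    rcases Nat.lt_or_ge (τ : ℕ) τ0 with hlt | hge
    · exact hs2 τ0 hlt h2 X hX f hf
    · have heq : τ0 = τ := le_antisymm hge h1
      subst heq
      exact hs2 _ le_rfl τ.isLt X hX f (twa_skip T J1 τ hcase hf)
  · push Not at hcase
    obtain ⟨ht, hh, hth⟩ := hcase
    by_contra hcon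
    have hδ0 : ∀ k : ℕ, ((1 : ℂ) / ((k : ℂ) + 1)) ≠ 0 := by
      intro k
      exact one_div_ne_zero (Nat.cast_add_one_ne_zero k)
    have hδ : Tendsto (fun k : ℕ => (1 : ℂ) / ((k : ℂ) + 1)) atTop (𝓝 0) :=
      tendsto_one_div_add_atTop_nhds_zero_nat
    set U : Ultrafilter ℕ := Filter.hyperfilter ℕ with hU
    have hUat : (U : Filter ℕ) ≤ atTop := by
      rw [hU, ← Nat.cofinite_eq_atTop]
      exact Filter.hyperfilter_le_cofinite
    have hδU : Tendsto (fun k : ℕ => (1 : ℂ) / ((k : ℂ) + 1)) (U : Filter ℕ) (𝓝 0) :=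
      hδ.mono_left hUat
    have hhom : ∀ k : ℕ, (prodP T.H ((T.to J1).b J1 τ) +
        MvPolynomial.C ((1 : ℂ) / ((k : ℂ) + 1)) * s').IsHomogeneous d := by
      intro k
      apply MvPolynomial.IsHomogeneous.add
      · have := prodP_hom T.H ((T.to J1).b J1 τ)
        rwa [b_sum (T.to J1) J1 τ hh] at this
      · have := (MvPolynomial.isHomogeneous_C (Fin (N + 1)) ((1 : ℂ) / ((k : ℂ) + 1))).mul hs'd
        rwa [zero_add] at this
    -- the failure of each form
    have hfail : ∀ k : ℕ, ∃ y : Finset (Fin q) × Fin (D * q + 1) × Finset (Fin (D * q)),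
        ((y.1 ∉ P ∧ y.1 ≠ J1) ∨ (y.1 = J1 ∧ (τ : ℕ) ≤ (y.2.1 : ℕ))) ∧
        y.2.2.card + 1 ≤ y.1.card ∧
        ∃ f, Sta2 T f y.1 (y.2.1 : ℕ) y.2.2
          (prodP T.H ((T.to J1).b J1 τ) + MvPolynomial.C ((1 : ℂ) / ((k : ℂ) + 1)) * s') := by
      intro k
      by_contra hno
      push Not at hno
      apply hcon
      refine ⟨_, hhom k, ?_, ?_⟩
      · intro J hJ hJ1 τ0 hτ0 X hX f hf
        exact hno (J, ⟨τ0, Nat.lt_succ_of_le hτ0⟩, X) (Or.inl ⟨hJ, hJ1⟩) hX f hf
      · intro τ0 h1 h2 X hX f hf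
        exact hno (J1, ⟨τ0, Nat.lt_succ_of_le h2⟩, X) (Or.inr ⟨rfl, h1⟩) hX f hf
    obtain ⟨y, hy⟩ := pick (U := U) (Filter.Eventually.of_forall hfail)
    obtain ⟨J, τ0, X⟩ := y
    simp only at hy
    have hXJ : X.card + 1 ≤ J.card := by
      obtain ⟨k, hk⟩ := hy.exists
      exact hk.2.1
    have hτ0M : (τ0 : ℕ) ≤ D * q := Nat.lt_succ_iff.mp τ0.isLt
    have hcase2 : (J ∉ P ∧ J ≠ J1) ∨ (J = J1 ∧ (τ : ℕ) ≤ (τ0 : ℕ)) := by
      obtain ⟨k, hk⟩ := hy.exists
      exact hk.1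
    rcases hcase2 with ⟨hJP, hJJ1⟩ | ⟨hJJ1, hττ0⟩
    · -- the level is invisible
      obtain ⟨k, hk⟩ := hy.exists
      obtain ⟨-, -, f, hf⟩ := hk
      have hns : ¬ J ⊆ J1 := by
        intro hsub
        exact hJP (hP1 J (Finset.card_lt_card (lt_of_le_of_ne hsub hJJ1)))
      obtain ⟨i, hiJ, hiJ1⟩ := Finset.not_subset.mp hns
      refine hs1 J hJP hJJ1 τ0 hτ0M X hXJ f ⟨hf.bcurve, hf.mem_iff, ?_, hf.rel⟩
      exact con_of_van (hδ0 k) (b_pos (T.to J1) J1 τ hiJ1) ((hf.mem_iff i).mp hiJ) hf.con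
    · subst hJJ1
      choose! F hF using fun (k : ℕ) (hk : ∃ f, Sta2 T f J (τ0 : ℕ) X
        (prodP T.H ((T.to J).b J τ) + MvPolynomial.C ((1 : ℂ) / ((k : ℂ) + 1)) * s')) => hk
      obtain ⟨g, J', hsub, halt⟩ := transition2 T J τ ht hh hth s' X τ0 hττ0 U _ hδU hδ0 F
        (hy.mono (fun k hk => hF k hk.2.2))
      have hlarge : J' ≠ J → J.card < J'.card ∧ J' ∉ P := by
        intro hne
        have hlt := Finset.card_lt_card (lt_of_le_of_ne hsub (Ne.symm hne))
        exact ⟨hlt, fun hP => absurd (hP2 J' hP) (not_le.mpr hlt)⟩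
      rcases halt with ⟨hlt, hst⟩ | ⟨heq, hne, hst⟩ | ⟨heq, -, hst⟩
      · by_cases hJJ : J' = J
        · subst hJJ
          exact hs2 τ0 hlt hτ0M X hXJ g hst
        · exact hs1 J' (hlarge hJJ).2 hJJ τ0 hτ0M X
            (hXJ.trans (hlarge hJJ).1.le) g hst
      · refine hs1 J' (hlarge hne).2 hne (τ + 1) τ.isLt (insert τ X) ?_ g hst
        have h1 := Finset.card_insert_le τ X
        have h2 := (hlarge hne).1
        omega
      · exact hs2 (τ + 1) le_rfl τ.isLt X hXJ g hst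

end Pool.Agent.H32.LD
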