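import Pool.Agent.H32.LD.TwA

/-!
# LinearDegree with linear orders: outer induction and start
-/

open Metric Set Filter Topology Finset

set_option autoImplicit false

namespace Pool.Agent.H32.LD

open Pool.Agent.H97.HY

private theorem twb_descend {N q D d : ℕ} (T : Tw N q D d) (P : Finset (Finset (Fin q)))
    (J1 : Finset (Fin q)) (hP1 : ∀ J : Finset (Fin q), J.card < J1.card → J ∈ P)
    (hP2 : ∀ J ∈ P, J.card ≤ J1.card) (hM : IC2 T P J1 (D * q)) :
    ∀ k, k ≤ D * q → IC2 T P J1 (D * q - k) := by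
  intro k
  induction k with
  | zero => intro _; simpa using hM
  | succ k ih =>
    intro hk
    have h1 := ih (by omega)
    have hlt : D * q - (k + 1) < D * q := by omega
    have h2 : D * q - k = ((⟨D * q - (k + 1), hlt⟩ : Fin (D * q)) : ℕ) + 1 := by
      simp only
      omega
    rw [h2] at h1
    exact inner_step2 T P J1 hP1 hP2 ⟨D * q - (k + 1), hlt⟩ h1

private theorem twb_aux {N q D d : ℕ} (T : Tw N q D d) (hwin : Winning2 T) :
    ∀ (n : ℕ) (P : Finset (Finset (Fin q))), (Pᶜ).card = n →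
      (∃ c, (∀ J : Finset (Fin q), J.card < c → J ∈ P) ∧ ∀ J ∈ P, J.card ≤ c) → OC2 T P := by
  intro n
  induction n with
  | zero =>
    intro P hP _
    refine ⟨0, MvPolynomial.isHomogeneous_zero _ _ _, fun J hJ => ?_⟩
    exfalso
    rw [Finset.card_eq_zero] at hP
    have : J ∈ Pᶜ := Finset.mem_compl.mpr hJ
    rw [hP] at this
    exact absurd this (Finset.notMem_empty J)
  | succ n ih =>
    rintro P hP ⟨c, hc1, hc2⟩
    have hne : (Pᶜ).Nonempty := by
      rw [← Finset.card_pos]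
      omega
    obtain ⟨J1, hJ1, hmin⟩ := Finset.exists_min_image (Pᶜ) Finset.card hne
    rw [Finset.mem_compl] at hJ1
    have hP1 : ∀ J : Finset (Fin q), J.card < J1.card → J ∈ P := by
      intro J hJ
      by_contra h
      have := hmin J (Finset.mem_compl.mpr h)
      omega
    have hcJ : c ≤ J1.card := by
      by_contra h
      exact hJ1 (hc1 J1 (by omega))
    have hP2 : ∀ J ∈ P, J.card ≤ J1.card := fun J hJ => (hc2 J hJ).trans hcJ
    have hins : OC2 T (insert J1 P) := by
      refine ih (insert J1 P) ?_ ⟨J1.card, fun J hJ => Finset.mem_insert_of_mem (hP1 J hJ), ?_⟩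
      · rw [Finset.compl_insert, Finset.card_erase_of_mem (Finset.mem_compl.mpr hJ1), hP]
        omega
      · intro J hJ
        rcases Finset.mem_insert.mp hJ with rfl | h
        · exact le_rfl
        · exact hP2 J h
    have hM : IC2 T P J1 (D * q) := by
      obtain ⟨s, hs, h⟩ := hins
      refine ⟨s, hs, fun J hJ hne τ0 hτ X hX => ?_, fun τ0 h1 h2 X hX => ?_⟩
      · refine h J ?_ τ0 hτ X hX
        rw [Finset.mem_insert]
        rintro (h' | h')
        · exact hne h'
        · exact hJ h'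
      · obtain rfl : τ0 = D * q := le_antisymm h2 h1
        exact hwin s J1 X hX
    have h0 := twb_descend T P J1 hP1 hP2 hM (D * q) le_rfl
    rw [Nat.sub_self] at h0
    obtain ⟨s, hs, h1, h2⟩ := h0
    refine ⟨s, hs, fun J hJ τ0 hτ X hX => ?_⟩
    by_cases hJJ : J = J1
    · subst hJJ
      exact h2 τ0 (Nat.zero_le _) hτ X hX
    · exact h1 J hJ hJJ τ0 hτ X hX

theorem outer2 {N q D d : ℕ} (T : Tw N q D d) (hwin : Winning2 T) : OC2 T ∅ := by
  refine twb_aux T hwin _ ∅ rfl ⟨0, fun J hJ => absurd hJ (Nat.not_lt_zero _), fun J hJ => ?_⟩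
  exact absurd hJ (Finset.notMem_empty J)

private theorem twb_tendsto : Tendsto (fun k : ℕ => 1 / ((k : ℂ) + 1))
    ((hyperfilter ℕ : Ultrafilter ℕ) : Filter ℕ) (𝓝 0) :=
  (tendsto_one_div_add_atTop_nhds_zero_nat (𝕜 := ℂ)).mono_left Nat.hyperfilter_le_atTop

theorem start2 {N q D d : ℕ} (T : Tw N q D d) (h : OC2 T ∅) :
    ∃ F : MvPolynomial (Fin (N + 1)) ℂ, F.IsHomogeneous d ∧ ¬ Hits F := by
  classical
  obtain ⟨s0, hs0, hE⟩ := h
  by_contra hcon
  have hall : ∀ F : MvPolynomial (Fin (N + 1)) ℂ, F.IsHomogeneous d → Hits F := by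
    intro F hF
    by_contra hF'
    exact hcon ⟨F, hF, hF'⟩
  have hP : (prodP T.H T.a).IsHomogeneous d := by
    have := prodP_hom T.H T.a
    rwa [T.a_sum] at this
  have hFk : ∀ k : ℕ, Hits (prodP T.H T.a + MvPolynomial.C (1 / ((k : ℂ) + 1)) * s0) := by
    intro k
    refine hall _ (hP.add ?_)
    have := (MvPolynomial.isHomogeneous_C (Fin (N + 1)) (1 / ((k : ℂ) + 1))).mul hs0
    rwa [zero_add] at this
  choose f hf hf0 using hFk
  obtain ⟨g, hg⟩ := exists_limit_bcurve (hyperfilter ℕ) f (Eventually.of_forall hf)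
  have hg0 : ∀ z, MvPolynomial.eval (g z) (prodP T.H T.a) = 0 :=
    IsLim.eval_eq_zero hg (fun z0 => Eventually.of_forall fun k => (hf k).chart z0) hP hs0
      twb_tendsto (fun z => Eventually.of_forall fun k => hf0 k z)
  obtain ⟨j, hj⟩ := exists_van_of_prod hg.bcurve.chart T.H T.a hg0
  set J : Finset (Fin q) := univ.filter (fun i => ∀ z, lin (T.H i) (g z) = 0) with hJ
  have hmem : ∀ i, i ∈ J ↔ ∀ z, lin (T.H i) (g z) = 0 := by
    intro i
    simp [hJ]
  have hcard : (∅ : Finset (Fin (D * q))).card + 1 ≤ J.card := by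
    rw [Finset.card_empty, zero_add]
    exact Finset.card_pos.mpr ⟨j, (hmem j).mpr hj⟩
  refine hE J (Finset.notMem_empty J) 0 (Nat.zero_le _) ∅ hcard g ?_
  refine ⟨hg.bcurve, hmem, ?_, fun p i j _ _ _ hk => absurd hk (Nat.not_lt_zero _)⟩
  have hW0 : T.W 0 = T.a := W_zero (T.to ∅)
  rw [hW0]
  refine con_limit_const hg T.H T.a s0 (A := Jᶜ) (B := Jᶜ) ?_ (Finset.Subset.refl _) ?_
  · refine Eventually.of_forall fun k => ?_
    have hk : (1 / ((k : ℂ) + 1)) ≠ 0 := by
      have : (k : ℂ) + 1 ≠ 0 := Nat.cast_add_one_ne_zero k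
      exact one_div_ne_zero this
    exact con_start (hf k).chart T.a_sum hs0 hk (hf0 k) Jᶜ
  · intro i hi
    rw [Finset.mem_compl, hmem] at hi
    by_contra hne
    apply hi
    intro z
    by_contra hz
    exact hne ⟨z, hz⟩

end Pool.Agent.H32.LD
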