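import Pool.Agent.H32.LD.TwB
import Pool.Agent.H32.LD.Exi
import Pool.Agent.H32.LD.Pai
import Pool.Agent.H97.HY.Grn
import Pool.Agent.H97.HY.Uni

/-!
# LinearDegree with linear orders: the winning lemma
-/

open Metric Set Filter Topology Finset

set_option autoImplicit false

namespace Pool.Agent.H32.LD

open Pool.Agent.H97.HY

theorem winning2 {N D d : ℕ} (hN : 2 ≤ N) (T : Tw N (3 * N) D d)
    (hexp : ∀ g : Fin (3 * N) → Fin 3, cnt 1 g = N → cnt 2 g = N →
      N - 1 ≤ ∑ p, dsc (3 * N) (g ∘ T.ord p)) : Winning2 T := by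
  classical
  intro s J X hX f hst
  have hJ1 : 1 ≤ J.card := by omega
  obtain ⟨hb, hmem, -, hrel⟩ := hst
  have hfne : ∀ z, f z ≠ 0 := by
    intro z h0
    obtain ⟨i, hi⟩ := hb.chart z
    exact hi.ne z (mem_ball_self rho_pos) (by rw [h0]; rfl)
  have hd : 1 ≤ d := d_pos T ⟨0, by omega⟩
  set S : ℂ → Finset (Fin (3 * N)) := fun z => Jᶜ.filter (fun j => lin (T.H j) (f z) = 0) with hS
  have hSJ : ∀ z, S z ⊆ Jᶜ := fun z => Finset.filter_subset _ _
  have hcard : ∀ z, J.card + (S z).card ≤ N := by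
    intro z
    have hdis : Disjoint J (S z) :=
      (disjoint_compl_right (a := J)).mono_right (hSJ z)
    have h1 := card_van_le T.gen (hfne z) (J ∪ S z) (by
      intro i hi
      rcases Finset.mem_union.mp hi with h | h
      · exact (hmem i).mp h z
      · exact (Finset.mem_filter.mp h).2)
    rwa [Finset.card_union_of_disjoint hdis] at h1
  have hJN : J.card ≤ N := le_trans (Nat.le_add_right _ _) (hcard 0)
  obtain ⟨m, hm⟩ : ∃ m, J.card + m = N := ⟨N - J.card, by omega⟩
  have hSm : ∀ z, (S z).card ≤ m := by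
    intro z
    have := hcard z
    omega
  have hclosed : ∀ z, ∀ (p : Fin D) (i j : Fin (3 * N)), i < j → T.ord p i ∉ J →
      (∀ l : Fin (3 * N), i < l → l ≤ j → idx p l ∉ X) →
      T.ord p j ∈ S z → T.ord p i ∈ S z := by
    intro z p i j hij hi hXl ht
    have ht' := Finset.mem_filter.mp ht
    have htJ : T.ord p j ∉ J := Finset.mem_compl.mp ht'.1
    have hc := hrel p i j hij hi htJ (idx p j).isLt hXl
    have := con_edge_imp (Nat.one_le_pow _ _ hd) hc ht'.2
    exact Finset.mem_filter.mpr ⟨Finset.mem_compl.mpr hi, this⟩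
  set Bad : Finset (Fin (3 * N)) := Jᶜ.filter (fun j => ∃ z, j ∈ S z) with hBad
  set O : Finset (Fin (3 * N)) := Jᶜ.filter (fun j => ¬ ∃ z, j ∈ S z) with hO
  have hJc : Jᶜ.card = 3 * N - J.card := by
    rw [Finset.card_compl, Fintype.card_fin]
  have hsplit : Bad.card + O.card = Jᶜ.card :=
    Finset.card_filter_add_card_filter_not _
  have hOcard : O.card ≤ 2 * m := by
    by_contra hlt
    push Not at hlt
    refine green hb T.gen (J := J) (O := O) (fun i hi z => (hmem i).mp hi z) hm (by omega) ?_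
    intro j hj z hz
    have hj' := Finset.mem_filter.mp hj
    exact hj'.2 ⟨z, Finset.mem_filter.mpr ⟨hj'.1, hz⟩⟩
  have hBadcard : 2 * N - m ≤ Bad.card := by omega
  have hm1 : 1 ≤ m := by
    by_contra h0
    have hm0 : m = 0 := by omega
    have : Bad = ∅ := by
      apply Finset.eq_empty_of_forall_notMem
      intro j hj
      obtain ⟨-, z, hz⟩ := Finset.mem_filter.mp hj
      have h1 := hSm z
      have h2 : 0 < (S z).card := Finset.card_pos.mpr ⟨j, hz⟩
      omega
    rw [this, Finset.card_empty] at hBadcard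
    omega
  obtain ⟨Z, hZ1, hZ2⟩ := union_chain S m N hSm Bad
    (fun x hx => (Finset.mem_filter.mp hx).2) (by omega) (by omega)
  set Y := Z.biUnion S with hY
  have hYJ : Y ⊆ Jᶜ := by
    intro x hx
    obtain ⟨z, -, hz⟩ := Finset.mem_biUnion.mp hx
    exact hSJ z hz
  have hcomp : N ≤ (Jᶜ \ Y).card := by
    rw [Finset.card_sdiff_of_subset hYJ]
    omega
  obtain ⟨A, hAY, hA⟩ := Finset.exists_subset_card_eq hZ1
  obtain ⟨B, hBY, hB⟩ := Finset.exists_subset_card_eq hcomp
  have hdisAB : ∀ x, x ∈ A → x ∉ B := by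
    intro x hxA hxB
    exact (Finset.mem_sdiff.mp (hBY hxB)).2 (hAY hxA)
  -- the labelling
  set g : Fin (3 * N) → Fin 3 := fun x => if x ∈ A then 1 else if x ∈ B then 2 else 0 with hg
  have hg1 : ∀ x, g x = 1 ↔ x ∈ A := by
    intro x
    simp only [hg]
    split_ifs with h1 h2
    · simp [h1]
    · simp [h1]
    · simp [h1]
  have hg2 : ∀ x, g x = 2 ↔ x ∈ B := by
    intro x
    simp only [hg]
    split_ifs with h1 h2
    · simp [hdisAB x h1]
    · simp [h2]
    · simp [h2]
  have hc1 : cnt 1 g = N := by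
    have h : univ.filter (fun i => g i = 1) = A := by
      ext x
      simp [hg1]
    unfold cnt
    rw [h, hA]
  have hc2 : cnt 2 g = N := by
    have h : univ.filter (fun i => g i = 2) = B := by
      ext x
      simp [hg2]
    unfold cnt
    rw [h, hB]
  have h1 := hexp g hc1 hc2
  have h2 : ∀ p : Fin D, dsc (3 * N) (g ∘ T.ord p) ≤
      (univ.filter (fun l : Fin (3 * N) => idx p l ∈ X)).card := by
    intro p
    refine dsc_le (g ∘ T.ord p) _ ?_
    intro i j hij hi2 hj1 _
    have hiB := (hg2 _).mp hi2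
    have hjA := (hg1 _).mp hj1
    by_contra hno
    push Not at hno
    obtain ⟨z, hzZ, hz⟩ := Finset.mem_biUnion.mp (hAY hjA)
    have hB' := Finset.mem_sdiff.mp (hBY hiB)
    have h3 := hclosed z p i j hij (Finset.mem_compl.mp hB'.1)
      (fun l hl1 hl2 hlX => absurd hl2 (not_le.mpr (hno l (by simp [hlX]) hl1))) hz
    exact hB'.2 (Finset.mem_biUnion.mpr ⟨z, hzZ, h3⟩)
  have h3 : ∑ p : Fin D, (univ.filter (fun l : Fin (3 * N) => idx p l ∈ X)).card = X.card := by
    rw [← Finset.card_sigma]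
    refine Finset.card_bij (fun y _ => idx y.1 y.2) ?_ ?_ ?_
    · intro y hy
      have := (Finset.mem_sigma.mp hy).2
      exact (Finset.mem_filter.mp this).2
    · rintro ⟨p, j⟩ _ ⟨p', j'⟩ _ h
      obtain ⟨rfl, rfl⟩ := idx_inj h
      rfl
    · intro k hk
      obtain ⟨p, j, rfl⟩ := exists_idx k
      exact ⟨⟨p, j⟩, by simp [hk], rfl⟩
  have h4 : ∑ p : Fin D, dsc (3 * N) (g ∘ T.ord p) ≤ X.card := by
    rw [← h3]
    exact Finset.sum_le_sum (fun p _ => h2 p)
  omega

end Pool.Agent.H32.LD
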